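import Pool.Agent.Work.MP_ab000d_co.Refl

set_option autoImplicit false

namespace Pool.Agent.Work.MP_ab000d_co

open Set

/-- Bit `v` of the number `s`. -/
def bit (s v : ℕ) : Prop := s / 2 ^ v % 2 = 1

theorem exists_bits (N : ℕ) (p : ℕ → Prop) : ∃ s < 2 ^ N, ∀ v < N, (bit s v ↔ p v) := by
  classical
  refine ⟨Nat.ofBits (fun i : Fin N => decide (p i)), Nat.ofBits_lt_two_pow _, ?_⟩
  intro v hv
  have := Nat.testBit_ofBits_lt (fun i : Fin N => decide (p i)) v hv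
  rw [Nat.testBit_eq_decide_div_mod_eq] at this
  unfold bit
  simpa using this

/-- Sets of edges from relations on the natural numbers. -/
def Er (R : ℕ → ℕ → Prop) : Set (ℤ × ℤ) := {e | ∃ i j : ℕ, e = ((i : ℤ), (j : ℤ)) ∧ R i j}

theorem mem_Er {R : ℕ → ℕ → Prop} {i j : ℕ} : ((i : ℤ), (j : ℤ)) ∈ Er R ↔ R i j := by
  constructor
  · rintro ⟨i', j', h, h'⟩
    simp only [Prod.mk.injEq, Nat.cast_inj] at h
    obtain ⟨rfl, rfl⟩ := h
    exact h'
  · intro h
    exact ⟨i, j, rfl, h⟩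

/-- Adjacency in the structure with code `(n, c)`. -/
def adj (n c i j : ℕ) : Prop := i < j ∧ j < n ∧ bit c (i * n + j)

theorem sup_Er {R : ℕ → ℕ → Prop} {n : ℕ} (h : ∀ i j, R i j → i < j ∧ j < n) :
    Sup 0 n (Er R) := by
  rintro e ⟨i, j, rfl, h'⟩
  have := h i j h'
  simp only
  omega

theorem sup_adj (n c : ℕ) : Sup 0 n (Er (adj n c)) := sup_Er fun _ _ h => ⟨h.1, h.2.1⟩

theorem exists_adj {n : ℕ} {Z : Set (ℤ × ℤ)} (h : Sup 0 (n : ℤ) Z) :
    ∃ c < 2 ^ (n * n), Z = Er (adj n c) := by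
  obtain ⟨c, hc, hc'⟩ := exists_bits (n * n)
    (fun k => (((k / n : ℕ) : ℤ), ((k % n : ℕ) : ℤ)) ∈ Z)
  refine ⟨c, hc, ?_⟩
  have key : ∀ i j : ℕ, i < n → j < n → (bit c (i * n + j) ↔ ((i : ℤ), (j : ℤ)) ∈ Z) := by
    intro i j hi hj
    have h1 : i * n + j < n * n := by
      calc i * n + j < i * n + n := by omega
        _ = (i + 1) * n := by ring
        _ ≤ n * n := Nat.mul_le_mul_right _ hi
    rw [hc' _ h1]
    have h2 : (i * n + j) / n = i := by
      rw [mul_comm, Nat.mul_add_div (by omega), Nat.div_eq_of_lt hj, add_zero]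
    have h3 : (i * n + j) % n = j := by
      rw [mul_comm, Nat.mul_add_mod, Nat.mod_eq_of_lt hj]
    rw [h2, h3]
  ext e
  constructor
  · intro he
    have h1 := h e he
    refine ⟨e.1.toNat, e.2.toNat, ?_, by omega, by omega, ?_⟩
    · ext <;> simp only <;> omega
    · rw [key _ _ (by omega) (by omega)]
      convert he using 1
      ext <;> simp only <;> omega
  · rintro ⟨i, j, rfl, h1, h2, h3⟩
    exact (key _ _ (by omega) h2).1 h3

/-- Connection, for codes. -/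
def connN (n c l r u v : ℕ) : Prop :=
  ∀ s < 2 ^ n, (∀ i < n, ∀ j < n, adj n c i j → l ≤ i → j < r → (bit s i ↔ bit s j)) →
    bit s u → bit s v

theorem conn_iff_connN {n c l r u v : ℕ} (hu : u < n) (hv : v < n) :
    Conn (res (Er (adj n c)) l r) u v ↔ connN n c l r u v := by
  rw [conn_iff_closed]
  constructor
  · intro h s _ hs hsu
    have h1 := h {w : ℤ | bit s w.toNat} (by
      rintro e ⟨⟨i, j, rfl, hij⟩, h2, h3⟩
      simp only at h2 h3
      simp only [mem_ofPred_eq, Int.toNat_natCast]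
      exact hs i (by have := hij.1; have := hij.2.1; omega) j hij.2.1 hij (by omega) (by omega))
      (by simpa using hsu)
    simpa using h1
  · intro h S hS huS
    obtain ⟨s, hs, hs'⟩ := exists_bits n (fun v => (v : ℤ) ∈ S)
    have := h s hs (by
      intro i hi j hj hij h1 h2
      rw [hs' i hi, hs' j hj]
      exact hS _ ⟨mem_Er.2 hij, by simp only; omega, by simp only; omega⟩)
      ((hs' u hu).2 huS)
    exact (hs' v hv).1 this

/-- Forests, for codes. -/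
def forestN (n c : ℕ) : Prop :=
  ∀ i < n, ∀ j < n, adj n c i j → ∃ s < 2 ^ n, bit s i ∧ ¬ bit s j ∧
    ∀ p < n, ∀ q < n, adj n c p q → (p = i ∧ q = j) ∨ (bit s p ↔ bit s q)

theorem forest_iff_forestN {n c : ℕ} : Forest (Er (adj n c)) ↔ forestN n c := by
  rw [forest_iff]
  constructor
  · intro h i hi j hj hij
    have h1 := h _ (mem_Er.2 hij)
    rw [conn_iff_closed] at h1
    push Not at h1
    obtain ⟨S, hS, hiS, hjS⟩ := h1
    simp only at hiS hjS
    obtain ⟨s, hs, hs'⟩ := exists_bits n (fun v => (v : ℤ) ∈ S)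
    refine ⟨s, hs, (hs' i hi).2 hiS, fun h2 => hjS ((hs' j hj).1 h2), ?_⟩
    intro p hp q hq hpq
    by_cases h2 : p = i ∧ q = j
    · exact Or.inl h2
    · right
      rw [hs' p hp, hs' q hq]
      refine hS ((p : ℤ), (q : ℤ)) ⟨mem_Er.2 hpq, ?_⟩
      simp only [mem_singleton_iff, Prod.mk.injEq, Nat.cast_inj]
      exact h2
  · rintro h e ⟨i, j, rfl, hij⟩ hc
    obtain ⟨s, hs, h1, h2, h3⟩ := h i (by have := hij.1; have := hij.2.1; omega) j hij.2.1 hij
    rw [conn_iff_closed] at hc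
    apply h2
    have := hc {w : ℤ | bit s w.toNat} (by
      rintro e ⟨⟨p, q, rfl, hpq⟩, hne⟩
      simp only [mem_ofPred_eq, Int.toNat_natCast]
      rcases h3 p (by have := hpq.1; have := hpq.2.1; omega) q hpq.2.1 hpq with h4 | h4
      · exfalso
        apply hne
        simp only [mem_singleton_iff, Prod.mk.injEq, Nat.cast_inj]
        exact h4
      · exact h4) (by simpa using h1)
    simpa using this

theorem res_eq_shf_iff {R R' : ℕ → ℕ → Prop} {m i : ℕ} (hR : ∀ p q, R p q → p < q)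
    (hR' : ∀ p q, R' p q → p < q ∧ q < m) :
    res (Er R) i (i + m) = shf i (Er R') ↔
      ∀ p < m, ∀ q < m, p < q → (R (i + p) (i + q) ↔ R' p q) := by
  constructor
  · intro h p hp q hq _
    have h1 : (((i + p : ℕ) : ℤ), ((i + q : ℕ) : ℤ)) ∈ res (Er R) i (i + m) ↔
        (((i + p : ℕ) : ℤ), ((i + q : ℕ) : ℤ)) ∈ shf i (Er R') := by rw [h]
    rw [mem_res, mem_shf, mem_Er] at h1
    have e1 : (((i + p : ℕ) : ℤ) - i, ((i + q : ℕ) : ℤ) - i) = ((p : ℤ), (q : ℤ)) := by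
      ext <;> simp
    simp only at h1
    rw [e1, mem_Er] at h1
    rw [← h1]
    constructor
    · intro h2
      exact ⟨h2, by omega, by omega⟩
    · intro h2
      exact h2.1
  · intro h
    ext e
    rw [mem_res, mem_shf]
    constructor
    · rintro ⟨⟨u, v, rfl, huv⟩, h1, h2⟩
      simp only at h1 h2 ⊢
      have h3 := hR _ _ huv
      obtain ⟨p, rfl⟩ : ∃ p, u = i + p := ⟨u - i, by omega⟩
      obtain ⟨q, rfl⟩ : ∃ q, v = i + q := ⟨v - i, by omega⟩
      have h4 : q < m := by push_cast at h2; omega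
      refine ⟨p, q, ?_, (h p (by omega) q h4 (by omega)).1 huv⟩
      ext <;> simp
    · rintro ⟨p, q, hpq, hR1⟩
      have h3 := hR' _ _ hR1
      simp only [Prod.mk.injEq] at hpq
      have h4 := (h p (by omega) q (by omega) (by omega)).2 hR1
      refine ⟨⟨i + p, i + q, ?_, h4⟩, by omega, by omega⟩
      ext
      · simp only; push_cast; omega
      · simp only; push_cast; omega

/-- Occurrences, for codes. -/
def occN (m d n c i : ℕ) : Prop :=
  i + m ≤ n ∧ ∀ p < m, ∀ q < m, p < q → (adj n c (i + p) (i + q) ↔ adj m d p q)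

theorem occAt_iff_occN {m d n c i : ℕ} :
    OccAt (m, Er (adj m d)) 0 n (Er (adj n c)) i ↔ occN m d n c i := by
  unfold OccAt occN
  simp only
  rw [res_eq_shf_iff (fun p q h => h.1) (fun p q h => ⟨h.1, h.2.1⟩)]
  constructor
  · rintro ⟨h1, h2, h3⟩
    exact ⟨by omega, h3⟩
  · rintro ⟨h1, h3⟩
    exact ⟨by omega, by omega, h3⟩

theorem occ_iff_occN {m d n c : ℕ} :
    Occ (m, Er (adj m d)) 0 n (Er (adj n c)) ↔ ∃ i < n + 1, occN m d n c i := by
  constructor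
  · rintro ⟨i, hi⟩
    obtain ⟨j, rfl⟩ := Int.eq_ofNat_of_zero_le hi.1
    rw [occAt_iff_occN] at hi
    exact ⟨j, by have := hi.1; omega, hi⟩
  · rintro ⟨i, _, hi⟩
    exact ⟨i, occAt_iff_occN.2 hi⟩

/-- Codes of finite sets of structures. -/
abbrev Code : Type := List (ℕ × List (ℕ × ℕ))

/-- Adjacency in a coded member of the basis. -/
def adjB (β : ℕ × List (ℕ × ℕ)) (p q : ℕ) : Prop :=
  p < q ∧ q < β.1 ∧ ((p, q) ∈ β.2 ∨ (q, p) ∈ β.2)

/-- The coded basis. -/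
def strs (B : Code) : Set Str := {s | ∃ β ∈ B, 1 ≤ β.1 ∧ s = (β.1, Er (adjB β))}

/-- A bound for the sizes. -/
def bound (B : Code) : ℕ := (B.map Prod.fst).foldl (fun s x => s + x) 1

theorem foldl_bound (l : List ℕ) (s : ℕ) : s ≤ l.foldl (fun s x => s + x) s ∧
    ∀ x ∈ l, x ≤ l.foldl (fun s x => s + x) s := by
  induction l generalizing s with
  | nil => simp
  | cons a l ih =>
    obtain ⟨h1, h2⟩ := ih (s + a)
    simp only [List.foldl_cons, List.mem_cons]
    refine ⟨by omega, ?_⟩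
    rintro x (rfl | hx)
    · omega
    · exact h2 x hx

theorem one_le_bound (B : Code) : 1 ≤ bound B := (foldl_bound _ 1).1

theorem bd_strs (B : Code) : Bd (strs B) (bound B) := by
  rintro _ ⟨β, hβ, -, rfl⟩
  exact (foldl_bound _ 1).2 β.1 (List.mem_map.2 ⟨β, hβ, rfl⟩)

/-- Avoidance, for codes. -/
def freeN (B : Code) (n c : ℕ) : Prop :=
  ∀ β ∈ B, 1 ≤ β.1 → ∀ i < n, i + β.1 ≤ n →
    ∃ p < β.1, ∃ q < β.1, p < q ∧ ¬ (adj n c (i + p) (i + q) ↔ adjB β p q)

theorem free_iff_freeN {B : Code} {n c : ℕ} :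
    Free (strs B) (Er (adj n c)) 0 n ↔ freeN B n c := by
  constructor
  · intro h β hβ hβ1 i hi hin
    have h1 := h _ ⟨β, hβ, hβ1, rfl⟩ i (by omega) (by simp only; omega)
    simp only at h1
    rw [ne_eq, res_eq_shf_iff (fun p q h => h.1) (fun p q h => ⟨h.1, h.2.1⟩)] at h1
    push Not at h1
    obtain ⟨p, hp, q, hq, hpq, h2⟩ := h1
    exact ⟨p, hp, q, hq, hpq, fun h3 => by tauto⟩
  · rintro h _ ⟨β, hβ, hβ1, rfl⟩ i h1 h2
    simp only at h2 ⊢
    obtain ⟨j, rfl⟩ := Int.eq_ofNat_of_zero_le h1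
    rw [ne_eq, res_eq_shf_iff (fun p q h => h.1) (fun p q h => ⟨h.1, h.2.1⟩)]
    intro h3
    obtain ⟨p, hp, q, hq, hpq, h4⟩ := h β hβ hβ1 j (by omega) (by omega)
    exact h4 (h3 p hp q hq hpq)

/-- Members of `Av(B)`, for codes. -/
def avN (B : Code) (n c : ℕ) : Prop := forestN n c ∧ freeN B n c

theorem av_iff_avN {B : Code} {n c : ℕ} : Av (strs B) (n, Er (adj n c)) ↔ avN B n c := by
  unfold avN
  rw [← forest_iff_forestN, ← free_iff_freeN]
  exact ⟨fun h => ⟨h.forest, h.free⟩, fun h => ⟨sup_adj n c, h.1, h.2⟩⟩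

theorem exists_av {B : Code} {n : ℕ} {X : Set (ℤ × ℤ)} (h : Av (strs B) (n, X)) :
    ∃ c < 2 ^ (n * n), avN B n c ∧ X = Er (adj n c) := by
  have h1 : Sup 0 (n : ℤ) X := h.sup
  obtain ⟨c, hc, rfl⟩ := exists_adj h1
  exact ⟨c, hc, av_iff_avN.1 h, rfl⟩

/-- `C0` for codes. -/
def C0N (B : Code) (b K : ℕ) : Prop :=
  ∃ n1 < K + 1, ∃ c1 < 2 ^ (n1 * n1), avN B n1 c1 ∧
    ∃ n2 < K + 1, ∃ c2 < 2 ^ (n2 * n2), avN B n2 c2 ∧
      ∀ n < n1 + n2 + pumpK b + 1, ∀ c < 2 ^ (n * n), avN B n c →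
        ¬ ((∃ i < n + 1, occN n1 c1 n c i) ∧ (∃ i < n + 1, occN n2 c2 n c i))

theorem C0_iff {B : Code} {b K : ℕ} : C0 (strs B) b K ↔ C0N B b K := by
  constructor
  · rintro ⟨⟨n1, X⟩, ⟨n2, Y⟩, h1, h2, h3, h4, h5⟩
    simp only at h1 h2
    obtain ⟨c1, hc1, ha1, rfl⟩ := exists_av h3
    obtain ⟨c2, hc2, ha2, rfl⟩ := exists_av h4
    refine ⟨n1, by omega, c1, hc1, ha1, n2, by omega, c2, hc2, ha2, ?_⟩
    rintro n hn c hc hav ⟨ho1, ho2⟩
    exact h5 (n, Er (adj n c)) (by simp only; omega) (av_iff_avN.2 hav)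
      ⟨occ_iff_occN.2 ho1, occ_iff_occN.2 ho2⟩
  · rintro ⟨n1, h1, c1, hc1, ha1, n2, h2, c2, hc2, ha2, h5⟩
    refine ⟨(n1, Er (adj n1 c1)), (n2, Er (adj n2 c2)), by simp only; omega,
      by simp only; omega, av_iff_avN.2 ha1, av_iff_avN.2 ha2, ?_⟩
    rintro ⟨n, Z⟩ hn hZ ⟨ho1, ho2⟩
    obtain ⟨c, hc, ha, rfl⟩ := exists_av hZ
    exact h5 n (by simp only at hn; omega) c hc ha ⟨occ_iff_occN.1 ho1, occ_iff_occN.1 ho2⟩

/-- `C1` for codes. -/
def C1N (B : Code) (b K : ℕ) : Prop :=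
  ∀ n1 < b + 1, ∀ c1 < 2 ^ (n1 * n1), 1 ≤ n1 → avN B n1 c1 →
    ∀ n2 < b + 1, ∀ c2 < 2 ^ (n2 * n2), 1 ≤ n2 → avN B n2 c2 →
      ∃ n < K + 1, ∃ c < 2 ^ (n * n), avN B n c ∧ ∃ i < n + 1, ∃ j < n + 1,
        occN n1 c1 n c i ∧ occN n2 c2 n c j ∧ i + n1 ≤ j ∧
        (∀ u < n, ∀ v < n, i ≤ u → u < i + n1 → i ≤ v → v < i + n1 →
          connN n c 0 (i + n1) u v) ∧
        (∀ u < n, ∀ v < n, j ≤ u → u < j + n2 → j ≤ v → v < j + n2 → connN n c j n u v)

theorem C1_iff {B : Code} {b K : ℕ} : C1 (strs B) b K ↔ C1N B b K := by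
  constructor
  · intro h n1 hn1 c1 hc1 h1 ha1 n2 hn2 c2 hc2 h2 ha2
    obtain ⟨⟨n, Z⟩, hn, hZ, i, j, hi, hj, hij, hc, hc'⟩ := h (n1, Er (adj n1 c1))
      (n2, Er (adj n2 c2)) h1 h2 (by simp only; omega) (by simp only; omega)
      (av_iff_avN.2 ha1) (av_iff_avN.2 ha2)
    obtain ⟨c, hc0, ha, rfl⟩ := exists_av hZ
    obtain ⟨i, rfl⟩ := Int.eq_ofNat_of_zero_le hi.1
    obtain ⟨j, rfl⟩ := Int.eq_ofNat_of_zero_le hj.1
    simp only at hn hij hc hc' hi hj
    have hi2 := hi.2.1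
    have hj2 := hj.2.1
    simp only at hi2 hj2
    refine ⟨n, by omega, c, hc0, ha, i, by omega, j, by omega,
      occAt_iff_occN.1 hi, occAt_iff_occN.1 hj, by omega, ?_, ?_⟩
    · intro u hu v hv h3 h4 h5 h6
      rw [← conn_iff_connN hu hv]
      have := hc u v (by omega) (by omega) (by omega) (by omega)
      push_cast
      exact this
    · intro u hu v hv h3 h4 h5 h6
      rw [← conn_iff_connN hu hv]
      exact hc' u v (by omega) (by omega) (by omega) (by omega)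
  · rintro h ⟨n1, X⟩ ⟨n2, Y⟩ h1 h2 h3 h4 h5 h6
    simp only at h1 h2 h3 h4
    obtain ⟨c1, hc1, ha1, rfl⟩ := exists_av h5
    obtain ⟨c2, hc2, ha2, rfl⟩ := exists_av h6
    obtain ⟨n, hn, c, hc0, ha, i, hi, j, hj, ho1, ho2, hij, hc, hc'⟩ :=
      h n1 (by omega) c1 hc1 h1 ha1 n2 (by omega) c2 hc2 h2 ha2
    have hi2 := ho1.1
    have hj2 := ho2.1
    refine ⟨(n, Er (adj n c)), by simp only; omega, av_iff_avN.2 ha, i, j,
      occAt_iff_occN.2 ho1, occAt_iff_occN.2 ho2, by simp only; omega, ?_, ?_⟩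
    · simp only
      intro u v h3 h4 h5 h6
      obtain ⟨u, rfl⟩ := Int.eq_ofNat_of_zero_le (a := u) (by omega)
      obtain ⟨v, rfl⟩ := Int.eq_ofNat_of_zero_le (a := v) (by omega)
      have := (conn_iff_connN (by omega) (by omega)).2
        (hc u (by omega) v (by omega) (by omega) (by omega) (by omega) (by omega))
      push_cast at this
      exact this
    · simp only
      intro u v h3 h4 h5 h6
      obtain ⟨u, rfl⟩ := Int.eq_ofNat_of_zero_le (a := u) (by omega)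
      obtain ⟨v, rfl⟩ := Int.eq_ofNat_of_zero_le (a := v) (by omega)
      exact (conn_iff_connN (by omega) (by omega)).2
        (hc' u (by omega) v (by omega) (by omega) (by omega) (by omega) (by omega))

/-- All small members occur, for codes. -/
def allN (B : Code) (N K c : ℕ) : Prop :=
  ∀ n < N, ∀ d < 2 ^ (n * n), avN B n d → ∃ i < K + 1, occN n d K c i

theorem all_iff {B : Code} {N K c : ℕ} :
    (∀ x : Str, x.1 < N → Av (strs B) x → Occ x 0 K (Er (adj K c))) ↔ allN B N K c := by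
  constructor
  · intro h n hn d hd ha
    exact occ_iff_occN.1 (h (n, Er (adj n d)) hn (av_iff_avN.2 ha))
  · rintro h ⟨n, X⟩ hn hX
    obtain ⟨d, hd, ha, rfl⟩ := exists_av hX
    exact occ_iff_occN.2 (h n hn d hd ha)

/-- `C3` for codes. -/
def C3N (B : Code) (K : ℕ) : Prop := ∃ c < 2 ^ (K * K), avN B K c ∧ allN B (K + 2) K c

theorem C3_iff {B : Code} {K : ℕ} : C3 (strs B) K ↔ C3N B K := by
  constructor
  · rintro ⟨Z, hZ, h⟩
    obtain ⟨c, hc, ha, rfl⟩ := exists_av hZ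
    exact ⟨c, hc, ha, all_iff.1 (fun x hx hA => h x (by omega) hA)⟩
  · rintro ⟨c, _, ha, h⟩
    exact ⟨_, av_iff_avN.2 ha, fun x hx hA => all_iff.2 h x (by omega) hA⟩

/-- `C2R` for codes. -/
def C2RN (B : Code) (b K : ℕ) : Prop :=
  ∃ c < 2 ^ (K * K), avN B K c ∧ ∃ m < K + 1, 1 ≤ m ∧ m + b ≤ K ∧
    (∀ v < K, m ≤ v → ∀ u < v, (adj K c u v ↔ u + 1 = v)) ∧ allN B (m + b + 3) K c

theorem C2R_iff {B : Code} {b K : ℕ} : C2R (strs B) b K ↔ C2RN B b K := by
  constructor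
  · rintro ⟨Z, hZ, m, hm, hmK, ht, h⟩
    obtain ⟨c, hc, ha, rfl⟩ := exists_av hZ
    refine ⟨c, hc, ha, m, by omega, hm, hmK, ?_, all_iff.1 (fun x hx hA => h x (by omega) hA)⟩
    intro v hv hmv u hu
    have := ht v (by omega) (by omega) u
    rw [mem_Er] at this
    rw [this]
    omega
  · rintro ⟨c, _, ha, m, _, hm, hmK, ht, h⟩
    refine ⟨_, av_iff_avN.2 ha, m, hm, hmK, ?_, fun x hx hA => all_iff.2 h x (by omega) hA⟩
    intro v hv hvK u
    obtain ⟨v, rfl⟩ := Int.eq_ofNat_of_zero_le (a := v) (by omega)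
    constructor
    · intro he
      have h1 := sup_adj _ _ _ he
      simp only at h1
      obtain ⟨u, rfl⟩ := Int.eq_ofNat_of_zero_le (a := u) (by omega)
      rw [mem_Er] at he
      have := (ht v (by omega) (by omega) u (by omega)).1 he
      omega
    · rintro rfl
      obtain ⟨v, rfl⟩ : ∃ w, v = w + 1 := ⟨v - 1, by omega⟩
      have := (ht (v + 1) (by omega) (by omega) v (by omega)).2 rfl
      have h2 := mem_Er.2 this
      push_cast at h2 ⊢
      rw [add_sub_cancel_right]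
      exact h2

/-- `C2L` for codes. -/
def C2LN (B : Code) (b K : ℕ) : Prop :=
  ∃ c < 2 ^ (K * K), avN B K c ∧ ∃ m < K + 1, 1 ≤ m ∧ m + b ≤ K ∧
    (∀ u < K - m, ∀ v < K, u < v → (adj K c u v ↔ u + 1 = v)) ∧ allN B (m + b + 3) K c

theorem C2L_iff {B : Code} {b K : ℕ} : C2L (strs B) b K ↔ C2LN B b K := by
  constructor
  · rintro ⟨Z, hZ, m, hm, hmK, ht, h⟩
    obtain ⟨c, hc, ha, rfl⟩ := exists_av hZ
    refine ⟨c, hc, ha, m, by omega, hm, hmK, ?_, all_iff.1 (fun x hx hA => h x (by omega) hA)⟩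
    intro u hu v hv huv
    have := ht u (by omega) (by omega) v
    rw [mem_Er] at this
    rw [this]
    omega
  · rintro ⟨c, _, ha, m, _, hm, hmK, ht, h⟩
    refine ⟨_, av_iff_avN.2 ha, m, hm, hmK, ?_, fun x hx hA => all_iff.2 h x (by omega) hA⟩
    intro u hu huK v
    obtain ⟨u, rfl⟩ := Int.eq_ofNat_of_zero_le (a := u) (by omega)
    constructor
    · intro he
      have h1 := sup_adj _ _ _ he
      simp only at h1
      obtain ⟨v, rfl⟩ := Int.eq_ofNat_of_zero_le (a := v) (by omega)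
      rw [mem_Er] at he
      have := (ht u (by omega) v (by omega) (by omega)).1 he
      omega
    · rintro rfl
      have := (ht u (by omega) (u + 1) (by omega) (by omega)).2 rfl
      have h2 := mem_Er.2 this
      push_cast at h2
      exact h2

end Pool.Agent.Work.MP_ab000d_co
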