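import Mathlib

set_option autoImplicit false

namespace Pool.Agent.Work.MP_ab000d_co

/-- An ordered forest of length `n ≥ 1`: a graph without cycles on the vertex set
`{0, ..., n - 1}`, which carries its natural linear order. -/
structure OForest where
  /-- the length -/
  n : ℕ
  pos : 1 ≤ n
  /-- the graph -/
  G : SimpleGraph (Fin n)
  acyclic : G.IsAcyclic

/-- The consecutive order: `F` is the induced subforest of `H` on an interval of consecutive
vertices `i, i + 1, ..., i + |F| - 1`. -/
def Consec (F H : OForest) : Prop :=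
  ∃ (i : ℕ) (h : i + F.n ≤ H.n), ∀ a b : Fin F.n,
    F.G.Adj a b ↔
      H.G.Adj ⟨i + a, lt_of_lt_of_le (Nat.add_lt_add_left a.isLt i) h⟩
        ⟨i + b, lt_of_lt_of_le (Nat.add_lt_add_left b.isLt i) h⟩

/-- Downward closed sets of ordered forests. -/
def DownClosed (Y : Set OForest) : Prop := ∀ x ∈ Y, ∀ y, Consec y x → y ∈ Y

/-- `Y` is atomic: it is downward closed and not the union of two proper downward closed
subsets. -/
def Atomic (Y : Set OForest) : Prop :=
  DownClosed Y ∧ ¬ ∃ Y₁ Y₂ : Set OForest, DownClosed Y₁ ∧ DownClosed Y₂ ∧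
    Y₁ ⊂ Y ∧ Y₂ ⊂ Y ∧ Y = Y₁ ∪ Y₂

/-- The class of ordered forests that avoid all members of `B`. -/
def avoid (B : Set OForest) : Set OForest := {x | ∀ β ∈ B, ¬ Consec β x}

/-- The pair `β` codes the ordered forest `F`: its first entry is the length of `F` and its
second entry is a list of the edges of `F`, each in any orientation (loops and pairs that are
not pairs of vertices are ignored). -/
def Codes (β : ℕ × List (ℕ × ℕ)) (F : OForest) : Prop :=
  F.n = β.1 ∧ ∀ i j : Fin F.n, F.G.Adj i j ↔
    i ≠ j ∧ (((i : ℕ), (j : ℕ)) ∈ β.2 ∨ ((j : ℕ), (i : ℕ)) ∈ β.2)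

/-- The finite set of ordered forests given by a list of codes (entries of the list that code
no ordered forest are ignored). -/
def forestsOf (B : List (ℕ × List (ℕ × ℕ))) : Set OForest := {F | ∃ β ∈ B, Codes β F}

end Pool.Agent.Work.MP_ab000d_co
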