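import Pool.Agent.Work.MP_ab000d_co.Pump

set_option autoImplicit false

namespace Pool.Agent.Work.MP_ab000d_co

open Set Submodule

variable {B : Set Str} {b : ℕ}

theorem OccAt.comp {x z : Str} {a c : ℤ} {W : Set (ℤ × ℤ)} {i i' : ℤ}
    (h : OccAt x 0 z.1 z.2 i) (h' : OccAt z a c W i') : OccAt x a c W (i' + i) := by
  obtain ⟨h1, h2, h3⟩ := h
  obtain ⟨h4, h5, h6⟩ := h'
  refine ⟨by omega, by omega, ?_⟩
  have e1 : res W (i' + i) (i' + i + x.1) =
      res (res W i' (i' + z.1)) (i' + i) (i' + i + x.1) := by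
    rw [res_res (by omega) (by omega)]
  rw [e1, h6, res_shf, show i' + i - i' = i by ring,
    show i' + i + (x.1 : ℤ) - i' = i + x.1 by ring, h3, shf_shf]

theorem exists_not_self (hj : JEP B) (h : ¬ Irr B) :
    ∃ z : Str, 1 ≤ z.1 ∧ Av B z ∧ ¬ J B z z := by
  by_contra hcon
  push Not at hcon
  apply h
  intro x y hx1 hy1 hx hy
  obtain ⟨z, hz, ⟨i, hi⟩, ⟨j, hj⟩⟩ := hj x y hx hy
  have hz1 : 1 ≤ z.1 := by
    have := hi.1
    have := hi.2.1
    omega
  obtain ⟨w, hw, i', j', h1, h2, h3⟩ := hcon z hz1 hz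
  refine ⟨w, hw, i' + i, j' + j, hi.comp h1, hj.comp h2, ?_⟩
  have := hi.2.1
  have := hj.1
  omega

/-- `t` occurs at most once in any member of `Av(B)`. -/
structure Uq (B : Set Str) (t : Str) : Prop where
  pos : 1 ≤ t.1
  av : Av B t
  uniq : ∀ (a c : ℤ) (E : Set (ℤ × ℤ)), Good B a c E → ∀ i j : ℤ, OccAt t a c E i →
    OccAt t a c E j → i = j

theorem exists_uq (hj : JEP B) (h : ¬ Irr B) : ∃ t : Str, Uq B t := by
  obtain ⟨z0, hz1, hz, hn⟩ := exists_not_self hj h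
  set P : Set ℕ := {d | ∃ t : Str, Av B t ∧ ∃ i j, OccAt z0 0 t.1 t.2 i ∧
    OccAt z0 0 t.1 t.2 j ∧ j = i + d} with hP
  have hbdd : BddAbove P := by
    refine ⟨z0.1, ?_⟩
    rintro d ⟨t, ht, i, j, hi, hj, hd⟩
    by_contra hcon
    exact hn ⟨t, ht, i, j, hi, hj, by omega⟩
  have hne : P.Nonempty := by
    have h0 : OccAt z0 0 z0.1 z0.2 0 := by
      refine ⟨le_rfl, by omega, ?_⟩
      rw [shf_zero, zero_add]
      exact res_eq_self hz.sup
    exact ⟨0, z0, hz, 0, 0, h0, h0, by simp⟩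
  have hmem := Nat.sSup_mem hne hbdd
  obtain ⟨t, ht, i, j, hi, hj, hd⟩ := hmem
  refine ⟨t, ?_, ht, ?_⟩
  · have := hi.1
    have := hi.2.1
    omega
  · have key : ∀ (a c : ℤ) (E : Set (ℤ × ℤ)), Good B a c E → ∀ i j : ℤ, OccAt t a c E i →
        OccAt t a c E j → ¬ i < j := by
      intro a c E hE i' j' hi' hj' hlt
      have hac : a ≤ c := by
        have := hi'.1
        have := hi'.2.1
        omega
      have h1 : (sSup P + (j' - i').toNat) ∈ P := by
        have o1 := (hi.comp hi').shift (s := -a)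
        have o2 := (hj.comp hj').shift (s := -a)
        have e1 : (((c - a).toNat : ℕ) : ℤ) = c + -a := by
          rw [Int.toNat_of_nonneg (by omega)]; ring
        refine ⟨_, hE.toAv hac, i' + i + -a, j' + j + -a, ?_, ?_, ?_⟩
        · simp only [e1]
          rwa [add_neg_cancel] at o1
        · simp only [e1]
          rwa [add_neg_cancel] at o2
        · push_cast
          rw [hd, Int.toNat_of_nonneg (by omega)]
          ring
      have h2 := le_csSup hbdd h1
      omega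
    intro a c E hE i' j' hi' hj'
    exact le_antisymm (not_lt.1 (key a c E hE j' i' hj' hi'))
      (not_lt.1 (key a c E hE i' j' hi' hj'))

/-- Extensions of the copy of `t` at position `0`. -/
structure Ext (B : Set Str) (t : Str) (a c : ℤ) (E : Set (ℤ × ℤ)) : Prop where
  good : Good B a c E
  occ : OccAt t a c E 0

variable {t : Str} {a c a' c' : ℤ} {E E' : Set (ℤ × ℤ)}

theorem Ext.a0 (h : Ext B t a c E) : a ≤ 0 := h.occ.1

theorem Ext.tc (h : Ext B t a c E) : (t.1 : ℤ) ≤ c := by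
  have := h.occ.2.1; omega

theorem Ext.rest (h : Ext B t a c E) (h1 : a ≤ a') (h2 : a' ≤ 0) (h3 : (t.1 : ℤ) ≤ c')
    (h4 : c' ≤ c) : Ext B t a' c' (res E a' c') :=
  ⟨h.good.rest h1 h4, h.occ.rest h2 (by omega)⟩

theorem Ext.join_occ (hj : JEP B) (hu : Uq B t) (h : Ext B t a c E) {x : Str} (hx : Av B x) :
    ∃ A C F, A ≤ a ∧ c ≤ C ∧ Ext B t A C F ∧ res F a c = E ∧ Occ x A C F := by
  have ha0 := h.a0
  have htc := h.tc
  have hac : a ≤ c := by omega
  have e1 : (((c - a).toNat : ℕ) : ℤ) = c - a := Int.toNat_of_nonneg (by omega)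
  obtain ⟨z, hz, ⟨i, hi⟩, ⟨j, hj⟩⟩ := hj _ x (h.good.toAv hac) hx
  obtain ⟨hi1, hi2, hi3⟩ := hi
  simp only [e1] at hi2 hi3
  have e2 : res (shf (a - i) z.2) a c = E := by
    rw [res_shf, show a - (a - i) = i by ring, show c - (a - i) = i + (c - a) by ring, hi3,
      shf_shf, shf_shf]
    rw [show a - i + i + -a = 0 by ring, shf_zero]
  refine ⟨a - i, z.1 + (a - i), shf (a - i) z.2, by omega, by omega, ⟨?_, ?_⟩, e2, ?_⟩
  · exact Good.shift' hz (by ring) rfl
  · refine ⟨by omega, by omega, ?_⟩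
    rw [← res_res (a := a) (c := c) (by omega) (by omega), e2]
    exact h.occ.2.2
  · refine ⟨j + (a - i), ?_⟩
    have := hj.shift (s := a - i)
    rwa [zero_add] at this

theorem Ext.join (hj : JEP B) (hu : Uq B t) (h : Ext B t a c E) (h' : Ext B t a' c' E') :
    ∃ A C F, A ≤ a ∧ A ≤ a' ∧ c ≤ C ∧ c' ≤ C ∧ Ext B t A C F ∧ res F a c = E ∧
      res F a' c' = E' := by
  have ha0 := h'.a0
  have htc := h'.tc
  have hac : a' ≤ c' := by omega
  have e1 : (((c' - a').toNat : ℕ) : ℤ) = c' - a' := Int.toNat_of_nonneg (by omega)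
  obtain ⟨A, C, F, hA, hC, hF, hFE, i, hi⟩ := h.join_occ hj hu (h'.good.toAv hac)
  have h1 : OccAt t A C F (i - a') := by
    have := h'.occ.shift (s := -a')
    have h2 := OccAt.comp (x := t) (z := ((c' - a').toNat, shf (-a') E')) (i := 0 + -a') (by
      simp only [e1]
      rw [add_neg_cancel] at this
      exact this) hi
    convert h2 using 1
    ring
  have h2 := hu.uniq A C F hF.good _ _ h1 hF.occ
  have h3 : i = a' := by omega
  subst h3
  obtain ⟨hi1, hi2, hi3⟩ := hi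
  simp only [e1] at hi2 hi3
  refine ⟨A, C, F, hA, hi1, hC, by omega, hF, hFE, ?_⟩
  rw [show i + (c' - i) = c' by ring, shf_shf, add_neg_cancel, shf_zero] at hi3
  exact hi3

theorem Ext.unique (hj : JEP B) (hu : Uq B t) (h : Ext B t a c E) (h' : Ext B t a c E') :
    E = E' := by
  obtain ⟨A, C, F, -, -, -, -, -, h1, h2⟩ := h.join hj hu h'
  rw [← h1, h2]

theorem Ext.cover (hj : JEP B) (hu : Uq B t) (h : Ext B t a c E) {S : Set Str} (hS : S.Finite)
    (hSA : ∀ x ∈ S, Av B x) :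
    ∃ A C F, A ≤ a ∧ c ≤ C ∧ Ext B t A C F ∧ res F a c = E ∧ ∀ x ∈ S, Occ x A C F := by
  induction S, hS using Set.Finite.induction_on with
  | empty => exact ⟨a, c, E, le_rfl, le_rfl, h, res_eq_self h.good.sup, by simp⟩
  | @insert x S _ _ ih =>
    obtain ⟨A, C, F, hA, hC, hF, hFE, hFS⟩ := ih (fun x hx => hSA x (mem_insert_of_mem _ hx))
    obtain ⟨A', C', F', hA', hC', hF', hFE', hx⟩ := hF.join_occ hj hu (hSA x (mem_insert _ _))
    refine ⟨A', C', F', by omega, by omega, hF', ?_, ?_⟩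
    · rw [← hFE, ← hFE', res_res hA hC]
    · rintro y (rfl | hy)
      · exact hx
      · obtain ⟨i, hi⟩ := hFS y hy
        rw [← hFE'] at hi
        exact ⟨i, hi.of_rest hA' hC'⟩

theorem Ext.long_conn (hj : JEP B) (hu : Uq B t) (hb : Bd B b) (h : Ext B t a c E) {i j : ℤ}
    (hi : a ≤ i) (hjc : j < c) (hij : i < j) (hbij : (b : ℤ) ≤ j - i)
    (hn : ¬ (0 ≤ i ∧ j < t.1)) : Conn E i j := by
  by_contra hcon
  have h1 : Ext B t a c (insert (i, j) E) := by
    refine ⟨h.good.insert_long hb hi hjc hbij hij hcon, h.occ.1, h.occ.2.1, ?_⟩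
    rw [← h.occ.2.2]
    ext e
    simp only [mem_res, mem_insert_iff]
    constructor
    · rintro ⟨rfl | h2, h3, h4⟩
      · simp only at h3 h4
        exact absurd ⟨h3, by omega⟩ hn
      · exact ⟨h2, h3, h4⟩
    · rintro ⟨h2, h3, h4⟩
      exact ⟨Or.inr h2, h3, h4⟩
  have h2 := h.unique hj hu h1
  apply hcon
  apply Conn.of_mem
  rw [h2]
  exact mem_insert _ _

theorem Ext.no_long (hj : JEP B) (hu : Uq B t) (hb : Bd B b) (h : Ext B t a c E) {i j : ℤ}
    (hij : (i, j) ∈ E) (hbij : (b : ℤ) ≤ j - i) : 0 ≤ i ∧ j < t.1 := by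
  by_contra hn
  have h1 : Ext B t a c (E \ {(i, j)}) := by
    refine ⟨h.good.remove_long hb sdiff_subset ?_, h.occ.1, h.occ.2.1, ?_⟩
    · intro e he he'
      refine ⟨he, ?_⟩
      rintro rfl
      simp only at he'
      omega
    · rw [← h.occ.2.2]
      ext e
      simp only [mem_res, mem_sdiff, mem_singleton_iff]
      constructor
      · rintro ⟨⟨h2, -⟩, h3, h4⟩
        exact ⟨h2, h3, h4⟩
      · rintro ⟨h2, h3, h4⟩
        refine ⟨⟨h2, ?_⟩, h3, h4⟩
        rintro rfl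
        simp only at h3 h4
        exact hn ⟨h3, by omega⟩
  have h2 := h.unique hj hu h1
  rw [h2] at hij
  exact hij.2 rfl

theorem Ext.conn_I (hj : JEP B) (hu : Uq B t) (hb : Bd B b) (h : Ext B t a c E) {s e i j : ℤ}
    (hs : a ≤ s) (he : e ≤ c) (hi : s ≤ i) (hje : j < e) (hij : i < j)
    (hbij : (b : ℤ) + t.1 ≤ j - i) : Conn (res E s e) i j := by
  by_contra hcon
  have h1 : Good B s e (insert (i, j) (res E s e)) :=
    (h.good.rest hs he).insert_long hb hi hje (by omega) hij hcon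
  have e1 : (((e - s).toNat : ℕ) : ℤ) = e - s := Int.toNat_of_nonneg (by omega)
  obtain ⟨A, C, F, -, -, hF, -, p, hp⟩ := h.join_occ hj hu (h1.toAv (by omega))
  obtain ⟨-, -, hp3⟩ := hp
  simp only [e1] at hp3
  have h2 : (i - s + p, j - s + p) ∈ F := by
    have h3 : (i - s + p, j - s + p) ∈ res F p (p + (e - s)) := by
      rw [hp3, shf_shf, mem_shf]
      left
      simp only [Prod.mk.injEq]
      constructor <;> ring
    exact h3.1
  have h3 := hF.no_long hj hu hb h2 (by omega)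
  omega

theorem conn_empty {u v : ℤ} (h : Conn ∅ u v) : u = v := by
  by_contra hne
  have := (h.closed {u} (by simp)).1 rfl
  exact hne this.symm

theorem Ext.tail_mem (hj : JEP B) (hu : Uq B t) (hb : Bd B b) (h : Ext B t a c E) {i : ℤ}
    (h1 : a + b + t.1 ≤ i) (h2 : i + b + t.1 + 2 ≤ c) : (i, i + 1) ∈ E := by
  have hpos := hu.pos
  by_contra hcon
  have c1 : Conn (res E a (i + 2)) i (i + 1) := by
    have h3 := h.conn_I hj hu hb (s := a) (e := i + 2) (i := a) (j := i) le_rfl (by omega) le_rfl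
      (by omega) (by omega) (by omega)
    have h4 := h.conn_I hj hu hb (s := a) (e := i + 2) (i := a) (j := i + 1) le_rfl (by omega)
      le_rfl (by omega) (by omega) (by omega)
    exact h3.symm.trans h4
  have c2 : Conn (res E i c) i (i + 1) := by
    have h3 := h.conn_I hj hu hb (s := i) (e := c) (i := i) (j := c - 1) (by omega) le_rfl le_rfl
      (by omega) (by omega) (by omega)
    have h4 := h.conn_I hj hu hb (s := i) (e := c) (i := i + 1) (j := c - 1) (by omega) le_rfl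
      (by omega) (by omega) (by omega) (by omega)
    exact h3.trans h4.symm
  have c3 := h.good.forest.conn_inter res_subset res_subset c1 c2
  have h5 : res E a (i + 2) ∩ res E i c = ∅ := by
    apply eq_empty_of_forall_notMem
    rintro e ⟨⟨he, -, he1⟩, -, he2, -⟩
    have := h.good.sup e he
    apply hcon
    convert he using 1
    ext <;> simp only <;> omega
  rw [h5] at c3
  have := conn_empty c3
  omega

theorem path_conn {u v : ℤ} (huv : u ≤ v) (h : ∀ i, u ≤ i → i < v → (i, i + 1) ∈ E) :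
    Conn E u v := by
  induction v, huv using Int.leInduction with
  | base => exact Conn.refl _ _
  | succ n hn ih =>
    exact (ih (fun i h1 h2 => h i h1 (by omega))).trans (Conn.of_mem (h n hn (by omega)))

theorem forest_path {u v : ℤ} (hE : Forest E) (he : (u, v) ∈ E) (huv : u < v)
    (h : ∀ i, u ≤ i → i < v → (i, i + 1) ∈ E) : v = u + 1 := by
  by_contra hne
  rw [forest_iff] at hE
  apply hE _ he
  apply path_conn huv.le
  intro i h1 h2
  refine ⟨h i h1 h2, ?_⟩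
  simp only [mem_singleton_iff, Prod.mk.injEq]
  omega

theorem Ext.tail_only (hj : JEP B) (hu : Uq B t) (hb : Bd B b) (h : Ext B t a c E) {u j : ℤ}
    (huj : (u, j) ∈ E) (h1 : t.1 ≤ j) (h2 : a + b + t.1 + b ≤ j) (h3 : j + b + t.1 + 2 ≤ c) :
    u = j - 1 := by
  have hlt := (h.good.sup _ huj).2.1
  simp only at hlt
  have hshort : j - u < b := by
    by_contra hcon
    have := h.no_long hj hu hb huj (by omega)
    omega
  have := forest_path h.good.forest huj hlt (by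
    intro i h4 h5
    exact h.tail_mem hj hu hb (by omega) (by omega))
  omega

/-- Extensions are unbounded to the right. -/
def RU (B : Set Str) (t : Str) : Prop := ∀ N : ℤ, ∃ a c E, Ext B t a c E ∧ N ≤ c

/-- Extensions are unbounded to the left. -/
def LU (B : Set Str) (t : Str) : Prop := ∀ N : ℤ, ∃ a c E, Ext B t a c E ∧ a ≤ N

theorem not_both (hj : JEP B) (hu : Uq B t) (hb : Bd B b) (hr : RU B t) (hl : LU B t) :
    False := by
  obtain ⟨a1, c1, E1, h1, hc1⟩ := hr (b + t.1 + 2 + t.1 + 1)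
  obtain ⟨a2, c2, E2, h2, ha2⟩ := hl (-(b + t.1))
  obtain ⟨a, c, E, ha1, ha2', hc1', hc2', h, -, -⟩ := h1.join hj hu h2
  have key : ∀ i : ℤ, 0 ≤ i → i ≤ t.1 → (i, i + 1) ∈ E := by
    intro i hi hi'
    exact h.tail_mem hj hu hb (by omega) (by omega)
  have key2 : ∀ u v : ℤ, 0 ≤ u → v ≤ t.1 → ((u, v) ∈ E ↔ v = u + 1) := by
    intro u v hu' hv
    constructor
    · intro huv
      exact forest_path h.good.forest huv (h.good.sup _ huv).2.1 (fun i h4 h5 =>
        key i (by omega) (by omega))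
    · rintro rfl
      exact key u hu' (by omega)
  have hocc : OccAt t a c E 1 := by
    have ha0 := h.a0
    refine ⟨by omega, by omega, ?_⟩
    have h3 := h.occ.2.2
    rw [zero_add, shf_zero] at h3
    rw [← h3]
    ext ⟨u, v⟩
    simp only [mem_res, mem_shf]
    constructor
    · rintro ⟨h4, h5, h6⟩
      refine ⟨?_, by omega, by omega⟩
      rw [key2 _ _ (by omega) (by omega)] at h4 ⊢
      omega
    · rintro ⟨h4, h5, h6⟩
      refine ⟨?_, by omega, by omega⟩
      rw [key2 _ _ (by omega) (by omega)] at h4 ⊢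
      omega
  have := hu.uniq a c E h.good _ _ hocc h.occ
  omega

/-- The finite case. -/
def C3 (B : Set Str) (K : ℕ) : Prop :=
  ∃ Z, Av B (K, Z) ∧ ∀ x : Str, x.1 ≤ K + 1 → Av B x → Occ x 0 K Z

/-- The case of a path to the right. -/
def C2R (B : Set Str) (b K : ℕ) : Prop :=
  ∃ Z, Av B (K, Z) ∧ ∃ m : ℕ, 1 ≤ m ∧ m + b ≤ K ∧
    (∀ v : ℤ, m ≤ v → v < K → ∀ u, ((u, v) ∈ Z ↔ u = v - 1)) ∧
    ∀ x : Str, x.1 ≤ m + b + 2 → Av B x → Occ x 0 K Z

theorem exists_min_left (hl : ¬ LU B t) (hne : ∃ a c E, Ext B t a c E) :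
    ∃ A, (∃ c E, Ext B t A c E) ∧ ∀ a c E, Ext B t a c E → A ≤ a := by
  unfold LU at hl
  push Not at hl
  obtain ⟨N, hN⟩ := hl
  obtain ⟨A, hA, hmin⟩ := Int.exists_least_of_bdd (P := fun a => ∃ c E, Ext B t a c E)
    ⟨N, fun z ⟨c, E, h⟩ => (hN z c E h).le⟩ hne
  exact ⟨A, hA, fun a c E h => hmin a ⟨c, E, h⟩⟩

theorem exists_max_right (hr : ¬ RU B t) (hne : ∃ a c E, Ext B t a c E) :
    ∃ C, (∃ a E, Ext B t a C E) ∧ ∀ a c E, Ext B t a c E → c ≤ C := by
  unfold RU at hr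
  push Not at hr
  obtain ⟨N, hN⟩ := hr
  obtain ⟨a0, c0, E0, h0⟩ := hne
  obtain ⟨C, hC, hmax⟩ := Int.exists_greatest_of_bdd (P := fun c => ∃ a E, Ext B t a c E)
    ⟨N, fun z ⟨a, E, h⟩ => (hN a z E h).le⟩ ⟨c0, a0, E0, h0⟩
  exact ⟨C, hC, fun a c E h => hmax c ⟨a, E, h⟩⟩

theorem Uq.ext (hu : Uq B t) : Ext B t 0 t.1 t.2 := by
  refine ⟨hu.av, le_rfl, by omega, ?_⟩
  rw [shf_zero, zero_add]
  exact res_eq_self hu.av.sup

theorem C3_of_bounded (hj : JEP B) (hu : Uq B t) (hr : ¬ RU B t) (hl : ¬ LU B t) :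
    ∃ K, C3 B K := by
  obtain ⟨A, ⟨c1, E1, h1⟩, hA⟩ := exists_min_left hl ⟨_, _, _, hu.ext⟩
  obtain ⟨C, ⟨a2, E2, h2⟩, hC⟩ := exists_max_right hr ⟨_, _, _, hu.ext⟩
  obtain ⟨A', C', F, ha1, ha2, hc1, hc2, hF, -, -⟩ := h1.join hj hu h2
  have e1 : A' = A := le_antisymm ha1 (hA _ _ _ hF)
  have e2 : C' = C := le_antisymm (hC _ _ _ hF) hc2
  subst e1 e2
  have hle : A' ≤ C' := by
    have := hF.a0
    have := hF.tc
    omega
  refine ⟨(C' - A').toNat, shf (-A') F, hF.good.toAv hle, ?_⟩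
  intro x _ hx
  obtain ⟨A'', C'', F', hA'', hC'', hF', hFF, i, hi⟩ := hF.join_occ hj hu hx
  have e3 : A'' = A' := le_antisymm hA'' (hA _ _ _ hF')
  have e4 : C'' = C' := le_antisymm (hC _ _ _ hF') hC''
  subst e3 e4
  rw [res_eq_self hF'.good.sup] at hFF
  subst hFF
  exact Occ.of_good hle hi

theorem C2R_of_RU (hj : JEP B) (hu : Uq B t) (hb : Bd B b) (hr : RU B t) (hl : ¬ LU B t) :
    ∃ K, C2R B b K := by
  have hpos := hu.pos
  obtain ⟨A, ⟨c1, E1, h1⟩, hA⟩ := exists_min_left hl ⟨_, _, _, hu.ext⟩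
  have hA0 : A ≤ 0 := h1.a0
  -- the beginning of the tail
  obtain ⟨D, hD⟩ : ∃ D : ℤ, D = t.1 + b + t.1 + b + 1 := ⟨_, rfl⟩
  obtain ⟨a2, c2, E2, h2, hc2⟩ := hr (D + b)
  obtain ⟨A3, c3, E3, hA3, -, -, hc3, h3, -, -⟩ := h1.join hj hu h2
  have e3 : A3 = A := le_antisymm hA3 (hA _ _ _ h3)
  subst e3
  have hm : (((D - A3).toNat : ℕ) : ℤ) = D - A3 := Int.toNat_of_nonneg (by omega)
  obtain ⟨A4, c4, E4, hA4, hc4, h4, -, hocc⟩ := h3.cover hj hu
    (S := {x : Str | x.1 ≤ (D - A3).toNat + b + 2 ∧ Av B x})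
    ((finite_small ((D - A3).toNat + b + 2)).subset (fun x hx => ⟨hx.1, hx.2.sup⟩))
    (fun x hx => hx.2)
  have e4 : A4 = A3 := le_antisymm hA4 (hA _ _ _ h4)
  subst e4
  obtain ⟨a5, c5, E5, h5, hc5⟩ := hr (c4 + b + t.1 + 3)
  obtain ⟨A6, c6, E6, hA6, -, hc6, hc6', h6, hE6, -⟩ := h4.join hj hu h5
  have e6 : A6 = A4 := le_antisymm hA6 (hA _ _ _ h6)
  subst e6
  have hle : A6 ≤ c4 := by omega
  have hK : (((c4 - A6).toNat : ℕ) : ℤ) = c4 - A6 := Int.toNat_of_nonneg (by omega)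
  refine ⟨(c4 - A6).toNat, shf (-A6) E4, h4.good.toAv hle, (D - A6).toNat, by omega, by omega,
    ?_, ?_⟩
  · intro v hv hv' u
    rw [hm] at hv
    rw [hK] at hv'
    rw [mem_shf]
    simp only
    constructor
    · intro he
      rw [← hE6] at he
      have := h6.tail_only hj hu hb he.1 (by omega) (by omega) (by omega)
      omega
    · rintro rfl
      have := h6.tail_mem hj hu hb (i := v - 1 - -A6) (by omega) (by omega)
      rw [← hE6]
      refine ⟨?_, ?_, ?_⟩
      · convert this using 2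
        ring
      · simp only; omega
      · simp only; omega
  · intro x hx hxA
    obtain ⟨i, hi⟩ := hocc x ⟨hx, hxA⟩
    exact Occ.of_good hle hi

end Pool.Agent.Work.MP_ab000d_co
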