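import Pool.Agent.Work.MP_ab000d_co.Str

set_option autoImplicit false

namespace Pool.Agent.Work.MP_ab000d_co

open Set Submodule

variable {B : Set Str} {b : ℕ}

/-- `x` and `y` occur disjointly, in this order, in some member of `Av(B)`. -/
def J (B : Set Str) (x y : Str) : Prop :=
  ∃ z : Str, Av B z ∧ ∃ i j, OccAt x 0 z.1 z.2 i ∧ OccAt y 0 z.1 z.2 j ∧ i + x.1 ≤ j

/-- Any two nonempty members occur disjointly in both orders. -/
def Irr (B : Set Str) : Prop :=
  ∀ x y : Str, 1 ≤ x.1 → 1 ≤ y.1 → Av B x → Av B y → J B x y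

/-- The finitary form of `Irr`. -/
def C1 (B : Set Str) (b K : ℕ) : Prop :=
  ∀ x y : Str, 1 ≤ x.1 → 1 ≤ y.1 → x.1 ≤ b → y.1 ≤ b → Av B x → Av B y →
    ∃ z : Str, z.1 ≤ K ∧ Av B z ∧ ∃ i j, OccAt x 0 z.1 z.2 i ∧ OccAt y 0 z.1 z.2 j ∧
      i + x.1 ≤ j ∧
      (∀ u v, i ≤ u → u < i + x.1 → i ≤ v → v < i + x.1 → Conn (res z.2 0 (i + x.1)) u v) ∧
      (∀ u v, j ≤ u → u < j + y.1 → j ≤ v → v < j + y.1 → Conn (res z.2 j z.1) u v)

/-- A good set of edges on an interval gives a member of `Av(B)`. -/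
theorem Good.toAv {a c : ℤ} {E : Set (ℤ × ℤ)} (h : Good B a c E) (hac : a ≤ c) :
    Av B ((c - a).toNat, shf (-a) E) := by
  unfold Av
  have h1 : (((c - a).toNat : ℕ) : ℤ) = c - a := Int.toNat_of_nonneg (by omega)
  simp only [h1]
  exact h.shift' (by ring) (by ring)

theorem OccAt.shift {x : Str} {a c : ℤ} {Z : Set (ℤ × ℤ)} {i s : ℤ} (h : OccAt x a c Z i) :
    OccAt x (a + s) (c + s) (shf s Z) (i + s) := by
  obtain ⟨h1, h2, h3⟩ := h
  refine ⟨by omega, by omega, ?_⟩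
  rw [res_shf, show i + s - s = i by ring, show i + s + (x.1 : ℤ) - s = i + x.1 by ring, h3,
    shf_shf, add_comm s i]

theorem OccAt.rest {x : Str} {a c a' c' : ℤ} {Z : Set (ℤ × ℤ)} {i : ℤ} (h : OccAt x a c Z i)
    (h1 : a' ≤ i) (h2 : i + x.1 ≤ c') : OccAt x a' c' (res Z a' c') i := by
  refine ⟨h1, h2, ?_⟩
  rw [res_res h1 h2, h.2.2]

theorem OccAt.of_rest {x : Str} {a c a' c' : ℤ} {Z : Set (ℤ × ℤ)} {i : ℤ}
    (h : OccAt x a' c' (res Z a' c') i) (h1 : a ≤ a') (h2 : c' ≤ c) : OccAt x a c Z i := by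
  obtain ⟨h3, h4, h5⟩ := h
  refine ⟨by omega, by omega, ?_⟩
  rwa [res_res h3 h4] at h5

theorem OccAt.of_eq {x : Str} {a c : ℤ} {Z Z' : Set (ℤ × ℤ)} {a' c' : ℤ} {i : ℤ}
    (h : OccAt x a c Z i) (h1 : a' ≤ i) (h2 : i + x.1 ≤ c') {p q : ℤ} (hp : p ≤ i)
    (hq : i + x.1 ≤ q) (hZ : res Z p q = res Z' p q) : OccAt x a' c' Z' i := by
  refine ⟨h1, h2, ?_⟩
  rw [← res_res hp hq, ← hZ, res_res hp hq, h.2.2]

theorem OccAt.av {x : Str} {a c : ℤ} {Z : Set (ℤ × ℤ)} {i : ℤ} (h : OccAt x a c Z i)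
    (hZ : Good B a c Z) : Av B x := by
  obtain ⟨h1, h2, h3⟩ := h
  have := hZ.rest h1 h2
  rw [h3] at this
  have h4 := this.shift (s := -i)
  rw [shf_shf, neg_add_cancel, shf_zero, add_neg_cancel, add_neg_cancel_comm] at h4
  exact h4

/-- Disjoint occurrences on a general interval give `J`. -/
theorem J.of_good {a c : ℤ} {E : Set (ℤ × ℤ)} (h : Good B a c E) (hac : a ≤ c) {x y : Str}
    {i j : ℤ} (hx : OccAt x a c E i) (hy : OccAt y a c E j) (hij : i + x.1 ≤ j) : J B x y := by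
  refine ⟨_, h.toAv hac, i + -a, j + -a, ?_, ?_, by omega⟩
  · have := hx.shift (s := -a)
    have h1 : (((c - a).toNat : ℕ) : ℤ) = c + -a := by
      rw [Int.toNat_of_nonneg (by omega)]; ring
    simp only [h1]
    rwa [add_neg_cancel] at this
  · have := hy.shift (s := -a)
    have h1 : (((c - a).toNat : ℕ) : ℤ) = c + -a := by
      rw [Int.toNat_of_nonneg (by omega)]; ring
    simp only [h1]
    rwa [add_neg_cancel] at this

theorem Occ.of_good {a c : ℤ} {E : Set (ℤ × ℤ)} (hac : a ≤ c) {x : Str}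
    {i : ℤ} (hx : OccAt x a c E i) : Occ x 0 (c - a).toNat (shf (-a) E) := by
  refine ⟨i + -a, ?_⟩
  have := hx.shift (s := -a)
  have h1 : (((c - a).toNat : ℕ) : ℤ) = c + -a := by
    rw [Int.toNat_of_nonneg (by omega)]; ring
  simp only [h1]
  rwa [add_neg_cancel] at this

theorem irr_of_C1 (hb : Bd B b) (hb1 : 1 ≤ b) {K : ℕ} (h : C1 B b K) : Irr B := by
  intro x y hx1 hy1 hx hy
  obtain ⟨n, X⟩ := x
  obtain ⟨m, Y⟩ := y
  simp only at hx1 hy1
  unfold Av at hx hy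
  simp only at hx hy
  -- the suffix of `x` and the prefix of `y`
  set k := min b n with hk
  set k' := min b m with hk'
  have hU : Av B (k, shf (-((n : ℤ) - k)) (res X (n - k) n)) := by
    have h1 := (hx.rest (a' := n - k) (c' := n) (by omega) le_rfl).shift (s := -((n : ℤ) - k))
    unfold Av
    simp only
    convert h1 using 1 <;> ring
  have hV : Av B (k', res Y 0 k') := hy.rest le_rfl (by simp only; omega)
  obtain ⟨z, -, hz, i, j, hUz, hVz, hij, hcU, hcV⟩ := h _ _ (by simp only; omega)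
    (by simp only; omega) (by simp only; omega) (by simp only; omega) hU hV
  simp only at hUz hVz hij hcU hcV
  obtain ⟨l, Z⟩ := z
  unfold Av at hz
  simp only at hz hUz hVz hcU hcV
  set p : ℤ := i + k with hp
  obtain ⟨hi0, hip, hUeq⟩ := hUz
  obtain ⟨hj0, hjp, hVeq⟩ := hVz
  simp only at hip hUeq hjp hVeq
  -- step 1
  have step1 : ∃ Z1, Good B (p - n) l Z1 ∧ res Z1 (p - n) p = shf (p - n) X ∧
      res Z1 i l = res Z i l := by
    by_cases hbn : b ≤ n
    · have hkb : k = b := by omega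
      have hX : Good B (p - n) p (shf (p - n) X) := hx.shift' (by ring) (by ring)
      obtain ⟨h1, h2, h3⟩ := paste hb hX hz (p := p) (by omega) (by omega) (by omega) (by
        rw [res_shf]
        have e1 : res Z (p - b) p = shf i (shf (-((n : ℤ) - k)) (res X (n - k) n)) := by
          rw [← hUeq]; congr 1; omega
        rw [e1, shf_shf]
        congr 1
        · omega
        · congr 1 <;> omega) (by
        intro u v h1 h2 h3 h4 _
        exact hcU u v (by omega) (by omega) (by omega) (by omega))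
      refine ⟨_, h1, h2, ?_⟩
      rw [show i = p - b by omega]
      exact h3
    · have hkn : k = n := by omega
      have hpi : p - n = i := by omega
      rw [hpi]
      refine ⟨res Z i l, hz.rest hi0 le_rfl, ?_, res_res le_rfl le_rfl⟩
      rw [res_res le_rfl (by omega), hUeq]
      congr 1
      rw [hkn, sub_self, neg_zero, shf_zero]
      exact res_eq_self hx.sup
  obtain ⟨Z1, hZ1, hZ1x, hZ1r⟩ := step1
  have hZ1j : res Z1 j l = res Z j l := by
    rw [← res_res (a := i) (c := l) (by omega) le_rfl, hZ1r, res_res (by omega) le_rfl]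
  -- step 2
  have step2 : ∃ Z2, Good B (p - n) (j + m) Z2 ∧ res Z2 (p - n) p = shf (p - n) X ∧
      res Z2 j (j + m) = shf j Y := by
    by_cases hbm : b ≤ m
    · have hkb : k' = b := by omega
      have hY : Good B j (j + m) (shf j Y) := hy.shift' (by ring) (by ring)
      obtain ⟨h1, h2, h3⟩ := paste' hb hY hZ1 (q := j) (by omega) (by omega) (by omega) (by
        rw [res_shf, sub_self, show j + b - j = (b : ℤ) by ring]
        have e1 : res Z1 j (j + b) = res Z j (j + b) := by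
          rw [← res_res (E := Z1) (a := j) (c := l) le_rfl (by omega), hZ1j,
            res_res le_rfl (by omega)]
        rw [e1, ← hkb, hVeq]) (by
        intro u v h1 h2 h3 h4 _
        rw [hZ1j]
        exact hcV u v (by omega) (by omega) (by omega) (by omega))
      refine ⟨_, h1, ?_, h2⟩
      rw [← res_res (a := p - n) (c := j + b) le_rfl (by omega), h3,
        res_res le_rfl (by omega), hZ1x]
    · have hkn : k' = m := by omega
      refine ⟨res Z1 (p - n) (j + m), hZ1.rest le_rfl (by omega), ?_, ?_⟩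
      · rw [res_res le_rfl (by omega), hZ1x]
      · rw [res_res (by omega) le_rfl]
        have e1 : res Z1 j (j + m) = res Z j (j + m) := by
          rw [← res_res (E := Z1) (a := j) (c := l) le_rfl (by omega), hZ1j,
            res_res le_rfl (by omega)]
        rw [e1]
        rw [hkn] at hVeq
        rw [hVeq]
        congr 1
        exact res_eq_self hy.sup
  obtain ⟨Z2, hZ2, hZ2x, hZ2y⟩ := step2
  refine J.of_good hZ2 (by omega) (i := p - n) (j := j) ⟨le_rfl, by simp only; omega, ?_⟩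
    ⟨by omega, le_rfl, hZ2y⟩ (by simp only; omega)
  simp only
  rw [sub_add_cancel]
  exact hZ2x

theorem finite_sup (a c : ℤ) : {E : Set (ℤ × ℤ) | Sup a c E}.Finite := by
  apply Set.Finite.subset (s := 𝒫 (Ico a c ×ˢ Ico a c))
  · exact ((finite_Ico a c).prod (finite_Ico a c)).finite_subsets
  · intro E hE e he
    have := hE e he
    exact ⟨⟨by omega, by omega⟩, ⟨by omega, by omega⟩⟩

theorem finite_small (b : ℕ) : {x : Str | x.1 ≤ b ∧ Sup 0 x.1 x.2}.Finite := by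
  apply Set.Finite.subset (s := (Set.Iic b) ×ˢ {E : Set (ℤ × ℤ) | Sup 0 b E})
  · exact (Set.finite_Iic b).prod (finite_sup 0 b)
  · rintro ⟨n, X⟩ ⟨h1, h2⟩
    exact ⟨h1, h2.mono le_rfl (by simp only at h1 ⊢; exact_mod_cast h1)⟩

/-- Maximal extension by long edges. -/
theorem max_ext (hb : Bd B b) {a c : ℤ} {E : Set (ℤ × ℤ)} (h : Good B a c E) :
    ∃ F, Good B a c F ∧ E ⊆ F ∧ (∀ e ∈ F, e.2 - e.1 < b → e ∈ E) ∧
      ∀ u v, a ≤ u → v < c → u < v → (b : ℤ) ≤ v - u → Conn F u v := by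
  have hfin : {F : Set (ℤ × ℤ) | Good B a c F ∧ E ⊆ F ∧
      (∀ e ∈ F, e.2 - e.1 < b → e ∈ E)}.Finite :=
    (finite_sup a c).subset (fun F hF => hF.1.sup)
  obtain ⟨F, hEF, hF⟩ := hfin.exists_le_maximal (a := E) ⟨h, le_rfl, fun e he _ => he⟩
  refine ⟨F, hF.1.1, hF.1.2.1, hF.1.2.2, ?_⟩
  intro u v hu hv huv hlong
  by_contra hn
  have h1 : Good B a c (insert (u, v) F) := hF.1.1.insert_long hb hu hv hlong huv hn
  have h2 := hF.2 (y := insert (u, v) F) ⟨h1, hEF.trans (subset_insert _ _), by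
    rintro e (rfl | he) h3
    · simp only at h3; omega
    · exact hF.1.2.2 e he h3⟩ (subset_insert _ _)
  exact hn (Conn.of_mem (h2 (mem_insert _ _)))

theorem Irr.long (h : Irr B) {x : Str} (hx1 : 1 ≤ x.1) (hx : Av B x) (N : ℕ) :
    ∃ w : Str, N ≤ w.1 ∧ 1 ≤ w.1 ∧ Av B w := by
  induction N with
  | zero => exact ⟨x, Nat.zero_le _, hx1, hx⟩
  | succ N ih =>
    obtain ⟨w, hw, hw1, hwA⟩ := ih
    obtain ⟨z, hz, i, j, h1, h2, h3⟩ := h w w hw1 hw1 hwA hwA
    obtain ⟨h4, h5, -⟩ := h1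
    obtain ⟨h6, h7, -⟩ := h2
    exact ⟨z, by omega, by omega, hz⟩

/-- Extending `x` to the left so that its vertices become connected. -/
theorem Irr.left (hb : Bd B b) (h : Irr B) {x : Str} (hx1 : 1 ≤ x.1) (hxb : x.1 ≤ b)
    (hx : Av B x) : ∃ w : Str, Av B w ∧ 1 ≤ w.1 ∧ ∃ i, OccAt x 0 w.1 w.2 i ∧ i + x.1 = w.1 ∧
      ∀ u v, i ≤ u → u < i + x.1 → i ≤ v → v < i + x.1 → Conn w.2 u v := by
  obtain ⟨w, hw, hw1, hwA⟩ := h.long hx1 hx b
  obtain ⟨z, hz, i, j, h1, h2, h3⟩ := h w x hw1 hx1 hwA hx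
  obtain ⟨F, hF, hzF, hFs, hFc⟩ := max_ext hb (Good.rest hz (a' := 0) (c' := j + x.1)
    le_rfl h2.2.1)
  have hj : (b : ℤ) ≤ j := by have := h1.1; omega
  have hocc : OccAt x 0 (j + x.1) F j := by
    refine ⟨by omega, le_rfl, ?_⟩
    rw [← h2.2.2]
    ext e
    simp only [mem_res]
    constructor
    · rintro ⟨h4, h5, h6⟩
      exact ⟨(hFs e h4 (by omega)).1, h5, h6⟩
    · rintro ⟨h4, h5, h6⟩
      exact ⟨hzF ⟨h4, by omega, h6⟩, h5, h6⟩
  have e1 : (((j + x.1).toNat : ℕ) : ℤ) = j + x.1 := Int.toNat_of_nonneg (by omega)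
  refine ⟨((j + x.1).toNat, F), ?_, by simp only; omega, j, ?_, ?_, ?_⟩
  · unfold Av; simp only [e1]; exact hF
  · simp only [e1]; exact hocc
  · simp only [e1]
  · intro u v h4 h5 h6 h7
    simp only
    have c1 : Conn F 0 u := hFc 0 u le_rfl (by omega) (by omega) (by omega)
    have c2 : Conn F 0 v := hFc 0 v le_rfl (by omega) (by omega) (by omega)
    exact c1.symm.trans c2

/-- Extending `y` to the right so that its vertices become connected. -/
theorem Irr.right (hb : Bd B b) (h : Irr B) {y : Str} (hy1 : 1 ≤ y.1) (hyb : y.1 ≤ b)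
    (hy : Av B y) : ∃ w : Str, Av B w ∧ 1 ≤ w.1 ∧ OccAt y 0 w.1 w.2 0 ∧
      ∀ u v : ℤ, 0 ≤ u → u < y.1 → 0 ≤ v → v < y.1 → Conn w.2 u v := by
  obtain ⟨w, hw, hw1, hwA⟩ := h.long hy1 hy (b + 1)
  obtain ⟨z, hz, i, j, h1, h2, h3⟩ := h y w hy1 hw1 hy hwA
  obtain ⟨F, hF, hzF, hFs, hFc⟩ := max_ext hb (Good.rest hz (a' := i) (c' := z.1)
    h1.1 le_rfl)
  have h20 := h2.2.1
  have hocc : OccAt y i z.1 F i := by
    refine ⟨le_rfl, h1.2.1, ?_⟩
    rw [← h1.2.2]
    ext e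
    simp only [mem_res]
    constructor
    · rintro ⟨h4, h5, h6⟩
      exact ⟨(hFs e h4 (by omega)).1, h5, h6⟩
    · rintro ⟨h4, h5, h6⟩
      exact ⟨hzF ⟨h4, h5, by omega⟩, h5, h6⟩
  have hA := hF.toAv (by omega)
  refine ⟨_, hA, by simp only; omega, ?_, ?_⟩
  · have := hocc.shift (s := -i)
    have e1 : ((((z.1 : ℤ) - i).toNat : ℕ) : ℤ) = z.1 + -i := by
      rw [Int.toNat_of_nonneg (by omega)]; ring
    simp only [e1]
    rwa [add_neg_cancel] at this
  · intro u v h4 h5 h6 h7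
    simp only
    rw [conn_shf]
    have c1 : Conn F (u - -i) (z.1 - 1) := hFc _ _ (by omega) (by omega) (by omega) (by omega)
    have c2 : Conn F (v - -i) (z.1 - 1) := hFc _ _ (by omega) (by omega) (by omega) (by omega)
    exact c1.trans c2.symm

theorem C1_of_irr (hb : Bd B b) (h : Irr B) : ∃ K, C1 B b K := by
  have key : ∀ x y : Str, 1 ≤ x.1 → 1 ≤ y.1 → x.1 ≤ b → y.1 ≤ b → Av B x → Av B y →
      ∃ K : ℕ, ∃ z : Str, z.1 ≤ K ∧ Av B z ∧ ∃ i j, OccAt x 0 z.1 z.2 i ∧ OccAt y 0 z.1 z.2 j ∧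
        i + x.1 ≤ j ∧
        (∀ u v, i ≤ u → u < i + x.1 → i ≤ v → v < i + x.1 → Conn (res z.2 0 (i + x.1)) u v) ∧
        (∀ u v, j ≤ u → u < j + y.1 → j ≤ v → v < j + y.1 → Conn (res z.2 j z.1) u v) := by
    intro x y hx1 hy1 hxb hyb hx hy
    obtain ⟨w, hw, hw1, i, hi, hiw, hwc⟩ := h.left hb hx1 hxb hx
    obtain ⟨w', hw', hw1', hi', hwc'⟩ := h.right hb hy1 hyb hy
    obtain ⟨z, hz, i0, j0, h1, h2, h3⟩ := h w w' hw1 hw1' hw hw'
    have hG := (Good.rest hz (a' := i0) (c' := j0 + w'.1) h1.1 h2.2.1)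
    have hle : i0 ≤ j0 + w'.1 := by omega
    refine ⟨(j0 + w'.1 - i0).toNat, _, le_rfl, hG.toAv hle, i, j0 - i0, ?_, ?_, ?_, ?_, ?_⟩
    · -- x occurs
      refine ⟨hi.1, by simp only; omega, ?_⟩
      simp only
      rw [res_shf, res_res (by have := hi.1; omega) (by omega)]
      have e1 : res z.2 (i - -i0) (i + x.1 - -i0) =
          res (res z.2 i0 (i0 + w.1)) (i - -i0) (i + x.1 - -i0) := by
        rw [res_res (by have := hi.1; omega) (by omega)]
      rw [e1, h1.2.2, res_shf, shf_shf]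
      rw [neg_add_cancel, shf_zero]
      rw [show i - -i0 - i0 = i by ring, show i + (x.1 : ℤ) - -i0 - i0 = i + x.1 by ring]
      exact hi.2.2
    · refine ⟨by omega, ?_, ?_⟩
      · simp only
        have := hi'.2.1
        omega
      · simp only
        have h4 := hi'.2.1
        rw [res_shf, res_res (by omega) (by omega)]
        have e1 : res z.2 (j0 - i0 - -i0) (j0 - i0 + y.1 - -i0) =
            res (res z.2 j0 (j0 + w'.1)) (j0 - i0 - -i0) (j0 - i0 + y.1 - -i0) := by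
          rw [res_res (by omega) (by omega)]
        rw [e1, h2.2.2, res_shf, shf_shf]
        have h5 := hi'.2.2
        rw [zero_add, shf_zero] at h5
        rw [show j0 - i0 - -i0 - j0 = 0 by ring, show j0 - i0 + (y.1 : ℤ) - -i0 - j0 = y.1 by ring,
          h5]
        congr 1
        ring
    · omega
    · intro u v h4 h5 h6 h7
      simp only
      rw [res_shf, res_res (by omega) (by omega), conn_shf]
      have e1 : res z.2 (0 - -i0) (i + x.1 - -i0) = shf i0 w.2 := by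
        rw [← h1.2.2]; congr 1 <;> omega
      rw [e1, conn_shf]
      have := hwc u v h4 h5 h6 h7
      convert this using 1 <;> ring
    · intro u v h4 h5 h6 h7
      simp only
      have e2 : (((j0 + w'.1 - i0).toNat : ℕ) : ℤ) = j0 + w'.1 - i0 :=
        Int.toNat_of_nonneg (by omega)
      rw [e2, res_shf, res_res (by omega) (by omega), conn_shf]
      have e1 : res z.2 (j0 - i0 - -i0) (j0 + w'.1 - i0 - -i0) = shf j0 w'.2 := by
        rw [← h2.2.2]; congr 1 <;> omega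
      rw [e1, conn_shf]
      exact hwc' (u - -i0 - j0) (v - -i0 - j0) (by omega) (by omega) (by omega) (by omega)
  -- uniform bound
  classical
  let F : Str × Str → ℕ := fun q => if hq : 1 ≤ q.1.1 ∧ 1 ≤ q.2.1 ∧ q.1.1 ≤ b ∧ q.2.1 ≤ b ∧
    Av B q.1 ∧ Av B q.2 then (key q.1 q.2 hq.1 hq.2.1 hq.2.2.1 hq.2.2.2.1 hq.2.2.2.2.1
      hq.2.2.2.2.2).choose else 0
  have hfin : ({x : Str | x.1 ≤ b ∧ Sup 0 x.1 x.2} ×ˢ {x : Str | x.1 ≤ b ∧ Sup 0 x.1 x.2}).Finite :=
    (finite_small b).prod (finite_small b)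
  obtain ⟨K, hK⟩ := (hfin.image F).bddAbove
  refine ⟨K, ?_⟩
  intro x y hx1 hy1 hxb hyb hx hy
  have h1 := (key x y hx1 hy1 hxb hyb hx hy).choose_spec
  have h2 : F (x, y) = (key x y hx1 hy1 hxb hyb hx hy).choose := by
    simp only [F]
    rw [dif_pos ⟨hx1, hy1, hxb, hyb, hx, hy⟩]
  obtain ⟨z, hz, h3⟩ := h1
  refine ⟨z, ?_, h3⟩
  have h4 : F (x, y) ≤ K := hK ⟨(x, y), ⟨⟨hxb, hx.sup⟩, ⟨hyb, hy.sup⟩⟩, rfl⟩
  rw [h2] at h4
  exact hz.trans h4

theorem occ_empty {x y : Str} (hx : Sup 0 x.1 x.2) (hx0 : x.1 = 0) (hy : Sup 0 y.1 y.2) :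
    Occ x 0 y.1 y.2 := by
  refine ⟨0, le_rfl, by omega, ?_⟩
  rw [shf_zero]
  have h1 : x.2 = ∅ := by
    apply eq_empty_of_forall_notMem
    intro e he
    have := hx e he
    omega
  rw [h1]
  apply eq_empty_of_forall_notMem
  intro e he
  have h2 := hy e he.1
  have h3 := he.2
  omega

theorem occ_self {x : Str} (hx : Sup 0 x.1 x.2) : Occ x 0 x.1 x.2 := by
  refine ⟨0, le_rfl, by omega, ?_⟩
  rw [shf_zero, zero_add]
  exact res_eq_self hx

theorem Irr.jep (h : Irr B) : JEP B := by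
  intro x y hx hy
  by_cases hx1 : 1 ≤ x.1
  · by_cases hy1 : 1 ≤ y.1
    · obtain ⟨z, hz, i, j, h1, h2, -⟩ := h x y hx1 hy1 hx hy
      exact ⟨z, hz, ⟨i, h1⟩, ⟨j, h2⟩⟩
    · exact ⟨x, hx, occ_self hx.sup, occ_empty hy.sup (by omega) hx.sup⟩
  · exact ⟨y, hy, occ_empty hx.sup (by omega) hy.sup, occ_self hy.sup⟩

end Pool.Agent.Work.MP_ab000d_co
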