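import Mathlib

set_option autoImplicit false

namespace Pool.Agent.Work.MP_ab000d_co

open Set Submodule

/-- The vector of an edge. -/
noncomputable def chi (e : ℤ × ℤ) : ℤ →₀ ℚ := Finsupp.single e.1 1 - Finsupp.single e.2 1

/-- Forests, as sets of edges. -/
def Forest (E : Set (ℤ × ℤ)) : Prop := LinearIndepOn ℚ chi E

/-- Two vertices are connected by `E`. -/
def Conn (E : Set (ℤ × ℤ)) (u v : ℤ) : Prop := chi (u, v) ∈ span ℚ (chi '' E)

theorem chi_self (u : ℤ) : chi (u, u) = 0 := by simp [chi]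

theorem chi_swap (u v : ℤ) : chi (u, v) = - chi (v, u) := by simp [chi]

theorem chi_add (u v w : ℤ) : chi (u, v) + chi (v, w) = chi (u, w) := by
  simp [chi]

theorem chi_ne_zero {u v : ℤ} (h : u ≠ v) : chi (u, v) ≠ 0 := by
  intro h0
  have := DFunLike.congr_fun h0 u
  simp [chi, h.symm] at this

theorem Conn.refl (E : Set (ℤ × ℤ)) (u : ℤ) : Conn E u u := by
  unfold Conn; rw [chi_self]; exact zero_mem _

theorem Conn.symm {E : Set (ℤ × ℤ)} {u v : ℤ} (h : Conn E u v) : Conn E v u := by
  unfold Conn at *; rw [chi_swap]; exact neg_mem h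

theorem Conn.trans {E : Set (ℤ × ℤ)} {u v w : ℤ} (h : Conn E u v) (h' : Conn E v w) :
    Conn E u w := by
  unfold Conn at *; rw [← chi_add u v w]; exact add_mem h h'

theorem Conn.mono {E F : Set (ℤ × ℤ)} (hEF : E ⊆ F) {u v : ℤ} (h : Conn E u v) : Conn F u v :=
  span_mono (image_mono hEF) h

theorem Conn.of_mem {E : Set (ℤ × ℤ)} {u v : ℤ} (h : (u, v) ∈ E) : Conn E u v :=
  subset_span ⟨_, h, rfl⟩

theorem Forest.mono {E F : Set (ℤ × ℤ)} (hEF : E ⊆ F) (h : Forest F) : Forest E :=
  LinearIndepOn.mono h hEF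

theorem forest_empty : Forest ∅ := linearIndepOn_empty ℚ chi

/-- Cut functionals. -/
noncomputable def cut (S : Set ℤ) : (ℤ →₀ ℚ) →ₗ[ℚ] ℚ := by
  classical
  exact Finsupp.linearCombination ℚ (fun v => if v ∈ S then (1 : ℚ) else 0)

theorem cut_chi (S : Set ℤ) [DecidablePred (· ∈ S)] (u v : ℤ) :
    cut S (chi (u, v)) = (if u ∈ S then 1 else 0) - (if v ∈ S then 1 else 0) := by
  classical
  simp only [cut, chi, map_sub, Finsupp.linearCombination_single, smul_eq_mul, one_mul]
  congr

theorem Conn.closed {E : Set (ℤ × ℤ)} {u v : ℤ} (h : Conn E u v) (S : Set ℤ)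
    (hS : ∀ e ∈ E, (e.1 ∈ S ↔ e.2 ∈ S)) : u ∈ S ↔ v ∈ S := by
  classical
  have hz : ∀ x ∈ span ℚ (chi '' E), cut S x = 0 := by
    intro x hx
    induction hx using span_induction with
    | mem x hx =>
      obtain ⟨e, he, rfl⟩ := hx
      have := hS e he
      obtain ⟨a, b⟩ := e
      rw [cut_chi]
      simp only at this
      simp [this]
    | zero => simp
    | add x y _ _ hx hy => rw [map_add, hx, hy, add_zero]
    | smul a x _ hx => rw [map_smul, hx, smul_zero]
  have h1 := hz _ h
  rw [cut_chi] at h1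
  by_cases hu : u ∈ S <;> by_cases hv : v ∈ S <;> simp_all

theorem conn_iff_closed {E : Set (ℤ × ℤ)} {u v : ℤ} :
    Conn E u v ↔ ∀ S : Set ℤ, (∀ e ∈ E, (e.1 ∈ S ↔ e.2 ∈ S)) → u ∈ S → v ∈ S := by
  constructor
  · intro h S hS hu
    exact (h.closed S hS).1 hu
  · intro h
    have := h {s | Conn E u s} (by
      intro e he
      constructor
      · intro h1; exact Conn.trans h1 (Conn.of_mem he)
      · intro h1; exact Conn.trans h1 (Conn.of_mem he).symm) (Conn.refl E u)
    exact this

/-- A forest is the same as a set of edges all of which are bridges. -/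
theorem forest_iff {E : Set (ℤ × ℤ)} :
    Forest E ↔ ∀ e ∈ E, ¬ Conn (E \ {e}) e.1 e.2 := by
  unfold Forest Conn
  rw [linearIndepOn_iff_notMem_span]

theorem Forest.insert {E : Set (ℤ × ℤ)} {e : ℤ × ℤ} (h : Forest E) (he : ¬ Conn E e.1 e.2) :
    Forest (insert e E) := by
  unfold Forest Conn at *
  exact LinearIndepOn.insert h he

theorem Forest.not_conn_of_insert {E : Set (ℤ × ℤ)} {e : ℤ × ℤ} (h : Forest (Insert.insert e E))
    (he : e ∉ E) : ¬ Conn E e.1 e.2 :=
  LinearIndepOn.notMem_span_of_insert h he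

/-- In a forest, connections inside two sets of edges live in the intersection. -/
theorem Forest.conn_inter {E A B : Set (ℤ × ℤ)} (h : Forest E) (hA : A ⊆ E) (hB : B ⊆ E)
    {u v : ℤ} (h1 : Conn A u v) (h2 : Conn B u v) : Conn (A ∩ B) u v := by
  unfold Conn at *
  rw [Finsupp.mem_span_image_iff_linearCombination] at h1 h2 ⊢
  obtain ⟨f, hf, hf'⟩ := h1
  obtain ⟨g, hg, hg'⟩ := h2
  have hfg : f = g := by
    have hi := h
    unfold Forest at hi
    rw [linearIndepOn_iff] at hi
    have := hi (f - g) (by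
      apply sub_mem
      · exact Finsupp.supported_mono hA hf
      · exact Finsupp.supported_mono hB hg) (by rw [map_sub, hf', hg', sub_self])
    exact sub_eq_zero.1 this
  subst hfg
  refine ⟨f, ?_, hf'⟩
  rw [Finsupp.mem_supported] at *
  exact subset_inter hf hg

/-- A vector in the span of a set of edges and supported in `S` is a combination of connections
between points of `S`. -/
theorem mem_span_of_support {E : Set (ℤ × ℤ)} {S : Set ℤ} {x : ℤ →₀ ℚ}
    (hx : x ∈ span ℚ (chi '' E)) (hS : ∀ v, x v ≠ 0 → v ∈ S) :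
    x ∈ span ℚ {y | ∃ s ∈ S, ∃ s' ∈ S, Conn E s s' ∧ y = chi (s, s')} := by
  classical
  -- the setoid of connection
  let st : Setoid ℤ := ⟨Conn E, ⟨Conn.refl E, fun h => h.symm, fun h h' => h.trans h'⟩⟩
  -- choose representatives
  let r' : Quotient st → ℤ := fun q => if h : ∃ s ∈ S, (Quotient.mk st s) = q then h.choose else 0
  let r : ℤ → ℤ := fun v => r' (Quotient.mk st v)
  have hr : ∀ s ∈ S, r s ∈ S ∧ Conn E s (r s) := by
    intro s hs
    have h : ∃ t ∈ S, (Quotient.mk st t) = Quotient.mk st s := ⟨s, hs, rfl⟩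
    have h2 : r s = h.choose := by
      simp only [r, r']
      rw [dif_pos h]
    rw [h2]
    refine ⟨h.choose_spec.1, ?_⟩
    have := Quotient.exact h.choose_spec.2
    exact Conn.symm this
  have hq : Finsupp.mapDomain r x = 0 := by
    have : ∀ y ∈ span ℚ (chi '' E), Finsupp.mapDomain r y = 0 := by
      intro y hy
      induction hy using span_induction with
      | mem y hy =>
        obtain ⟨e, he, rfl⟩ := hy
        obtain ⟨a, b⟩ := e
        have hab : r a = r b := by
          have : Quotient.mk st a = Quotient.mk st b := Quotient.sound (Conn.of_mem he)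
          simp only [r, this]
        have h1 : Finsupp.mapDomain r (chi (a, b)) =
            Finsupp.single (r a) (1 : ℚ) - Finsupp.single (r b) 1 := by
          have := (Finsupp.mapDomain.addMonoidHom (M := ℚ) r).map_sub
            (Finsupp.single a 1) (Finsupp.single b 1)
          simpa [chi, Finsupp.mapDomain_single] using this
        rw [h1, hab, sub_self]
      | zero => simp
      | add x y _ _ hx hy => rw [Finsupp.mapDomain_add, hx, hy, add_zero]
      | smul a x _ hx => rw [Finsupp.mapDomain_smul, hx, smul_zero]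
    exact this x hx
  have hx1 : x = x.sum (fun v a => a • chi (v, r v)) := by
    have h1 : x.sum (fun v a => a • chi (v, r v)) =
        x.sum (fun v a => Finsupp.single v a) - x.sum (fun v a => Finsupp.single (r v) a) := by
      rw [← Finsupp.sum_sub]
      apply Finsupp.sum_congr
      intro v _
      simp [chi, smul_sub]
    rw [h1, Finsupp.sum_single]
    have h2 : x.sum (fun v a => Finsupp.single (r v) a) = Finsupp.mapDomain r x := rfl
    rw [h2, hq, sub_zero]
  rw [hx1]
  apply sum_mem
  intro v hv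
  apply smul_mem
  apply subset_span
  have hvS : v ∈ S := hS v (by simpa using hv)
  exact ⟨v, hvS, r v, (hr v hvS).1, (hr v hvS).2, rfl⟩

theorem support_of_mem_span {E : Set (ℤ × ℤ)} {x : ℤ →₀ ℚ} (hx : x ∈ span ℚ (chi '' E)) {v : ℤ}
    (hv : x v ≠ 0) : ∃ e ∈ E, v = e.1 ∨ v = e.2 := by
  by_contra hcon
  push Not at hcon
  apply hv
  induction hx using span_induction with
  | mem y hy =>
    obtain ⟨e, he, rfl⟩ := hy
    have := hcon e he
    simp [chi, this.1.symm, this.2.symm]
  | zero => simp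
  | add x y _ _ hx hy =>
    rw [Finsupp.add_apply]
    by_cases h1 : x v = 0
    · by_cases h2 : y v = 0
      · rw [h1, h2, add_zero]
      · exact absurd (hy h2) h2
    · exact absurd (hx h1) h1
  | smul a x _ hx =>
    rw [Finsupp.smul_apply]
    by_cases h1 : x v = 0
    · rw [h1, smul_zero]
    · exact absurd (hx h1) h1

/-- **Exchange lemma.** -/
theorem exchange {E1 E1' R : Set (ℤ × ℤ)} {S : Set ℤ}
    (h1 : Forest (E1 ∪ R)) (h1' : Forest E1') (hW : ∀ e ∈ R, e ∈ E1 → e ∈ E1')
    (hS : ∀ v, (∃ e ∈ E1', v = e.1 ∨ v = e.2) → (∃ e ∈ R \ E1', v = e.1 ∨ v = e.2) → v ∈ S)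
    (hconn : ∀ s ∈ S, ∀ s' ∈ S, Conn E1' s s' → Conn E1 s s') : Forest (E1' ∪ R) := by
  have hU : E1' ∪ R = E1' ∪ (R \ E1') := by simp
  rw [hU]
  have hdR : Forest (R \ E1') := h1.mono (fun e he => Or.inr he.1)
  unfold Forest at *
  apply LinearIndepOn.union h1' hdR
  rw [Submodule.disjoint_def]
  intro x hx1 hx2
  have hxS : ∀ v, x v ≠ 0 → v ∈ S := fun v hv =>
    hS v (support_of_mem_span hx1 hv) (support_of_mem_span hx2 hv)
  have hx3 := mem_span_of_support hx1 hxS
  have hx4 : x ∈ span ℚ (chi '' E1) := by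
    refine span_le.2 ?_ hx3
    rintro y ⟨s, hs, s', hs', hc, rfl⟩
    exact hconn s hs s' hs' hc
  have hdis : Disjoint (span ℚ (chi '' E1)) (span ℚ (chi '' (R \ E1'))) := by
    have hd : Disjoint E1 (R \ E1') := by
      rw [Set.disjoint_left]
      intro e he he'
      exact he'.2 (hW e he'.1 he)
    exact ((linearIndepOn_union_iff hd).1 (LinearIndepOn.mono h1
      (union_subset_union_right E1 sdiff_subset))).2.2
  exact (Submodule.disjoint_def.1 hdis) x hx4 hx2

end Pool.Agent.Work.MP_ab000d_co
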