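import Pool.Agent.Work.MP_ab000d_co.Prim
import Pool.Agent.Work.MP_ab000d_co.Defs

set_option autoImplicit false

namespace Pool.Agent.Work.MP_ab000d_co

open Set

/-- The relation of a graph on `Fin n`, on natural numbers. -/
def relG {n : ℕ} (H : SimpleGraph (Fin n)) (i j : ℕ) : Prop :=
  i < j ∧ ∃ (hi : i < n) (hj : j < n), H.Adj ⟨i, hi⟩ ⟨j, hj⟩

/-- The edges of a graph on `Fin n`. -/
def Eg {n : ℕ} (H : SimpleGraph (Fin n)) : Set (ℤ × ℤ) := Er (relG H)

theorem mem_Eg {n : ℕ} {H : SimpleGraph (Fin n)} {i j : Fin n} :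
    (((i : ℕ) : ℤ), ((j : ℕ) : ℤ)) ∈ Eg H ↔ i < j ∧ H.Adj i j := by
  unfold Eg
  rw [mem_Er]
  constructor
  · rintro ⟨h1, _, _, h2⟩
    exact ⟨h1, h2⟩
  · rintro ⟨h1, h2⟩
    exact ⟨h1, i.2, j.2, h2⟩

theorem relG_lt {n : ℕ} (H : SimpleGraph (Fin n)) (i j : ℕ) (h : relG H i j) :
    i < j ∧ j < n := by
  obtain ⟨h1, h2, h3, h4⟩ := h
  exact ⟨h1, h3⟩

theorem sup_Eg {n : ℕ} (H : SimpleGraph (Fin n)) : Sup 0 n (Eg H) := sup_Er (relG_lt H)

theorem conn_of_adj {n : ℕ} {H : SimpleGraph (Fin n)} {a b : Fin n} (h : H.Adj a b) :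
    Conn (Eg H) ((a : ℕ) : ℤ) ((b : ℕ) : ℤ) := by
  rcases lt_trichotomy a b with h1 | h1 | h1
  · exact Conn.of_mem (mem_Eg.2 ⟨h1, h⟩)
  · subst h1
    exact Conn.refl _ _
  · exact (Conn.of_mem (mem_Eg.2 ⟨h1, h.symm⟩)).symm

theorem reach_iff {n : ℕ} (H : SimpleGraph (Fin n)) (u v : Fin n) :
    H.Reachable u v ↔ Conn (Eg H) ((u : ℕ) : ℤ) ((v : ℕ) : ℤ) := by
  constructor
  · intro h
    rw [SimpleGraph.reachable_iff_reflTransGen] at h
    induction h with
    | refl => exact Conn.refl _ _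
    | tail _ hbc ih => exact ih.trans (conn_of_adj hbc)
  · intro h
    have := (h.closed {w : ℤ | ∃ x : Fin n, ((x : ℕ) : ℤ) = w ∧ H.Reachable u x} (by
      rintro e ⟨i, j, rfl, hij, hi, hj, hadj⟩
      constructor
      · rintro ⟨x, hx, hx'⟩
        simp only [Nat.cast_inj] at hx
        subst hx
        exact ⟨⟨j, hj⟩, rfl, hx'.trans hadj.reachable⟩
      · rintro ⟨x, hx, hx'⟩
        simp only [Nat.cast_inj] at hx
        subst hx
        exact ⟨⟨i, hi⟩, rfl, hx'.trans hadj.symm.reachable⟩)).1 ⟨u, rfl, SimpleGraph.Reachable.refl _⟩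
    obtain ⟨x, hx, hx'⟩ := this
    simp only [Nat.cast_inj, Fin.val_inj] at hx
    subst hx
    exact hx'

theorem Eg_delete {n : ℕ} (H : SimpleGraph (Fin n)) {i j : Fin n} (hij : i < j) :
    Eg (H.deleteEdges {s(i, j)}) = Eg H \ {(((i : ℕ) : ℤ), ((j : ℕ) : ℤ))} := by
  ext e
  constructor
  · rintro ⟨p, q, rfl, hpq, hp, hq, hadj⟩
    rw [SimpleGraph.deleteEdges_adj] at hadj
    refine ⟨⟨p, q, rfl, hpq, hp, hq, hadj.1⟩, ?_⟩
    simp only [mem_singleton_iff, Prod.mk.injEq, Nat.cast_inj]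
    rintro ⟨rfl, rfl⟩
    exact hadj.2 rfl
  · rintro ⟨⟨p, q, rfl, hpq, hp, hq, hadj⟩, hne⟩
    refine ⟨p, q, rfl, hpq, hp, hq, ?_⟩
    rw [SimpleGraph.deleteEdges_adj]
    refine ⟨hadj, ?_⟩
    simp only [mem_singleton_iff, Prod.mk.injEq, Nat.cast_inj] at hne
    simp only [mem_singleton_iff, Sym2.eq_iff]
    rintro (⟨h1, h2⟩ | ⟨h1, h2⟩)
    · exact hne ⟨congrArg Fin.val h1, congrArg Fin.val h2⟩
    · have h3 := congrArg Fin.val h1
      have h4 := congrArg Fin.val h2
      simp only at h3 h4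
      have : (i : ℕ) < j := hij
      omega

theorem acyclic_iff {n : ℕ} (H : SimpleGraph (Fin n)) : H.IsAcyclic ↔ Forest (Eg H) := by
  rw [SimpleGraph.isAcyclic_iff_forall_adj_isBridge, forest_iff]
  constructor
  · rintro h e ⟨i, j, rfl, hij, hi, hj, hadj⟩
    have h1 := h hadj
    rw [SimpleGraph.isBridge_iff, reach_iff, Eg_delete H (show (⟨i, hi⟩ : Fin n) < ⟨j, hj⟩ from hij)]
      at h1
    exact h1
  · intro h v w hadj
    rcases lt_trichotomy v w with h1 | h1 | h1
    · rw [SimpleGraph.isBridge_iff, reach_iff, Eg_delete H h1]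
      exact h _ (mem_Eg.2 ⟨h1, hadj⟩)
    · subst h1
      exact absurd hadj (H.loopless.irrefl v)
    · rw [Sym2.eq_swap, SimpleGraph.isBridge_iff, reach_iff, Eg_delete H h1]
      exact h _ (mem_Eg.2 ⟨h1, hadj.symm⟩)

/-- The structure of an ordered forest. -/
def toStr (F : OForest) : Str := (F.n, Eg F.G)

theorem OForest.ext' {F H : OForest} (h : toStr F = toStr H) : F = H := by
  obtain ⟨n, hn, G, hG⟩ := F
  obtain ⟨n', hn', G', hG'⟩ := H
  simp only [toStr, Prod.mk.injEq] at h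
  obtain ⟨rfl, h2⟩ := h
  have : G = G' := by
    ext a b
    have key : ∀ a b : Fin n, a < b → (G.Adj a b ↔ G'.Adj a b) := by
      intro a b hab
      have h3 : (((a : ℕ) : ℤ), ((b : ℕ) : ℤ)) ∈ Eg G ↔ (((a : ℕ) : ℤ), ((b : ℕ) : ℤ)) ∈ Eg G' := by
        rw [h2]
      rw [mem_Eg, mem_Eg] at h3
      simpa [hab] using h3
    rcases lt_trichotomy a b with h1 | h1 | h1
    · exact key a b h1
    · subst h1
      simp
    · rw [G.adj_comm, G'.adj_comm]
      exact key b a h1
  subst this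
  rfl

theorem exists_toStr {n : ℕ} {X : Set (ℤ × ℤ)} (hn : 1 ≤ n) (hX : Sup 0 (n : ℤ) X)
    (hF : Forest X) : ∃ F : OForest, toStr F = (n, X) := by
  let H : SimpleGraph (Fin n) :=
    SimpleGraph.fromRel (fun i j : Fin n => (((i : ℕ) : ℤ), ((j : ℕ) : ℤ)) ∈ X)
  have h1 : Eg H = X := by
    ext e
    constructor
    · rintro ⟨i, j, rfl, hij, hi, hj, hadj⟩
      simp only [H, SimpleGraph.fromRel_adj] at hadj
      rcases hadj.2 with h2 | h2
      · exact h2
      · have := (hX _ h2).2.1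
        simp only at this
        omega
    · intro he
      have h2 := hX e he
      refine ⟨e.1.toNat, e.2.toNat, ?_, by omega, by omega, by omega, ?_⟩
      · ext <;> simp only <;> omega
      · simp only [H, SimpleGraph.fromRel_adj]
        refine ⟨?_, Or.inl ?_⟩
        · intro h3
          have := congrArg Fin.val h3
          simp only at this
          omega
        · convert he using 1
          ext <;> simp only <;> omega
  refine ⟨⟨n, hn, H, ?_⟩, ?_⟩
  · rw [acyclic_iff, h1]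
    exact hF
  · simp only [toStr, h1]

theorem consec_iff {F H : OForest} : Consec F H ↔ Occ (toStr F) 0 (toStr H).1 (toStr H).2 := by
  have key : ∀ i : ℕ, (res (Eg H.G) i (i + F.n) = shf i (Eg F.G) ↔
      ∀ p < F.n, ∀ q < F.n, p < q → (relG H.G (i + p) (i + q) ↔ relG F.G p q)) := fun i =>
    res_eq_shf_iff (fun p q h => h.1) (relG_lt F.G)
  constructor
  · rintro ⟨i, h, hadj⟩
    refine ⟨i, by omega, by simp only [toStr]; omega, ?_⟩
    simp only [toStr]
    rw [key]
    intro p hp q hq hpq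
    have h1 := hadj ⟨p, hp⟩ ⟨q, hq⟩
    constructor
    · rintro ⟨_, _, _, h2⟩
      exact ⟨hpq, hp, hq, h1.2 h2⟩
    · rintro ⟨_, _, _, h2⟩
      exact ⟨by omega, by omega, by omega, h1.1 h2⟩
  · rintro ⟨i, h1, h2, h3⟩
    obtain ⟨i, rfl⟩ := Int.eq_ofNat_of_zero_le h1
    simp only [toStr] at h2 h3
    rw [key] at h3
    have hle : i + F.n ≤ H.n := by omega
    refine ⟨i, hle, ?_⟩
    have key2 : ∀ a b : Fin F.n, a < b → (F.G.Adj a b ↔
        H.G.Adj ⟨i + a, lt_of_lt_of_le (Nat.add_lt_add_left a.isLt i) hle⟩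
          ⟨i + b, lt_of_lt_of_le (Nat.add_lt_add_left b.isLt i) hle⟩) := by
      intro a b hab
      have h4 := h3 a a.2 b b.2 hab
      constructor
      · intro h5
        obtain ⟨_, _, _, h6⟩ := h4.2 ⟨hab, a.2, b.2, h5⟩
        exact h6
      · intro h5
        obtain ⟨_, _, _, h6⟩ := h4.1 ⟨by have : (a : ℕ) < b := hab; omega, _, _, h5⟩
        exact h6
    intro a b
    rcases lt_trichotomy a b with h4 | h4 | h4
    · exact key2 a b h4
    · subst h4
      simp
    · rw [F.G.adj_comm, H.G.adj_comm]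
      exact key2 b a h4

theorem codes_iff {β : ℕ × List (ℕ × ℕ)} {F : OForest} :
    Codes β F ↔ toStr F = (β.1, Er (adjB β)) := by
  obtain ⟨m, L⟩ := β
  constructor
  · rintro ⟨h1, h2⟩
    simp only at h1 h2
    subst h1
    simp only [toStr, Prod.mk.injEq, true_and]
    ext e
    constructor
    · rintro ⟨i, j, rfl, hij, hi, hj, hadj⟩
      exact ⟨i, j, rfl, hij, hj, ((h2 _ _).1 hadj).2⟩
    · rintro ⟨i, j, rfl, hij, hj, hL⟩
      simp only at hj
      refine ⟨i, j, rfl, hij, by omega, hj, (h2 _ _).2 ⟨?_, hL⟩⟩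
      intro h3
      have := congrArg Fin.val h3
      simp only at this
      omega
  · intro h
    simp only [toStr, Prod.mk.injEq] at h
    obtain ⟨h1, h2⟩ := h
    subst h1
    refine ⟨rfl, ?_⟩
    have key : ∀ i j : Fin F.n, i < j → (F.G.Adj i j ↔
        (((i : ℕ), (j : ℕ)) ∈ L ∨ ((j : ℕ), (i : ℕ)) ∈ L)) := by
      intro i j hij
      have h3 : (((i : ℕ) : ℤ), ((j : ℕ) : ℤ)) ∈ Eg F.G ↔
          (((i : ℕ) : ℤ), ((j : ℕ) : ℤ)) ∈ Er (adjB (F.n, L)) := by rw [h2]
      rw [mem_Eg, mem_Er] at h3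
      unfold adjB at h3
      have h4 : (i : ℕ) < j := hij
      simp only [hij, h4, j.2, true_and] at h3
      exact h3
    intro i j
    rcases lt_trichotomy i j with h3 | h3 | h3
    · rw [key i j h3]
      simp [h3.ne]
    · subst h3
      simp
    · rw [F.G.adj_comm, key j i h3]
      simp only [ne_eq, h3.ne', not_false_eq_true, true_and]
      exact or_comm

theorem toStr_pos (F : OForest) : 1 ≤ (toStr F).1 := F.pos

theorem mem_avoid_iff {B : Code} {F : OForest} :
    F ∈ avoid (forestsOf B) ↔ Av (strs B) (toStr F) := by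
  constructor
  · intro h
    refine ⟨sup_Eg F.G, (acyclic_iff F.G).1 F.acyclic, ?_⟩
    rintro _ ⟨β, hβ, hβ1, rfl⟩ i h1 h2 h3
    simp only at h2 h3
    -- the member of the basis is a forest
    have hocc : OccAt (β.1, Er (adjB β)) 0 (toStr F).1 (toStr F).2 i := ⟨h1, h2, h3⟩
    have hfor : Forest (Er (adjB β)) := by
      rw [← forest_shf (s := i), ← h3]
      exact ((acyclic_iff F.G).1 F.acyclic).mono res_subset
    obtain ⟨H, hH⟩ := exists_toStr hβ1 (sup_Er fun p q h => ⟨h.1, h.2.1⟩) hfor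
    exact h H ⟨β, hβ, codes_iff.2 hH⟩ (consec_iff.2 ⟨i, by rw [hH]; exact hocc⟩)
  · rintro h H ⟨β, hβ, hc⟩ hcon
    obtain ⟨i, h1, h2, h3⟩ := consec_iff.1 hcon
    rw [codes_iff] at hc
    have hβ1 : 1 ≤ β.1 := by
      have := H.pos
      have h4 : H.n = β.1 := congrArg Prod.fst hc
      omega
    rw [hc] at h2 h3
    exact h.free _ ⟨β, hβ, hβ1, rfl⟩ i h1 h2 h3

theorem consec_refl (F : OForest) : Consec F F := consec_iff.2 (occ_self (sup_Eg F.G))

theorem consec_trans {F H L : OForest} (h : Consec F H) (h' : Consec H L) : Consec F L := by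
  rw [consec_iff] at *
  obtain ⟨i, hi⟩ := h
  obtain ⟨j, hj⟩ := h'
  exact ⟨_, hi.comp hj⟩

theorem downClosed_avoid (B : Set OForest) : DownClosed (avoid B) :=
  fun _ hx _ hyx β hβ hc => hx β hβ (consec_trans hc hyx)

theorem atomic_iff {Y : Set OForest} (hY : DownClosed Y) :
    Atomic Y ↔ ∀ x ∈ Y, ∀ y ∈ Y, ∃ z ∈ Y, Consec x z ∧ Consec y z := by
  constructor
  · rintro ⟨_, h⟩ x hx y hy
    by_contra hcon
    push Not at hcon
    apply h
    refine ⟨{z | z ∈ Y ∧ ¬ Consec x z}, {z | z ∈ Y ∧ ¬ Consec y z}, ?_, ?_, ?_, ?_, ?_⟩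
    · rintro z ⟨h1, h2⟩ w hwz
      exact ⟨hY z h1 w hwz, fun h3 => h2 (consec_trans h3 hwz)⟩
    · rintro z ⟨h1, h2⟩ w hwz
      exact ⟨hY z h1 w hwz, fun h3 => h2 (consec_trans h3 hwz)⟩
    · rw [ssubset_iff_subset_ne]
      refine ⟨fun z hz => hz.1, fun h1 => ?_⟩
      rw [← h1] at hx
      exact hx.2 (consec_refl x)
    · rw [ssubset_iff_subset_ne]
      refine ⟨fun z hz => hz.1, fun h1 => ?_⟩
      rw [← h1] at hy
      exact hy.2 (consec_refl y)
    · ext z
      constructor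
      · intro hz
        by_cases h1 : Consec x z
        · exact Or.inr ⟨hz, hcon z hz h1⟩
        · exact Or.inl ⟨hz, h1⟩
      · rintro (h1 | h1)
        · exact h1.1
        · exact h1.1
  · intro h
    refine ⟨hY, ?_⟩
    rintro ⟨Y₁, Y₂, h1, h2, h3, h4, h5⟩
    obtain ⟨x, hx, hx'⟩ := exists_of_ssubset h3
    obtain ⟨y, hy, hy'⟩ := exists_of_ssubset h4
    obtain ⟨z, hz, hxz, hyz⟩ := h x hx y hy
    rw [h5] at hz
    rcases hz with hz | hz
    · exact hx' (h1 z hz x hxz)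
    · exact hy' (h2 z hz y hyz)

theorem atomic_avoid_iff (B : Code) : Atomic (avoid (forestsOf B)) ↔ JEP (strs B) := by
  rw [atomic_iff (downClosed_avoid _)]
  constructor
  · intro h x y hx hy
    obtain ⟨n, X⟩ := x
    obtain ⟨m, Y⟩ := y
    by_cases hn : 1 ≤ n
    · by_cases hm : 1 ≤ m
      · obtain ⟨F, hF⟩ := exists_toStr hn hx.sup hx.forest
        obtain ⟨H, hH⟩ := exists_toStr hm hy.sup hy.forest
        obtain ⟨Z, hZ, h1, h2⟩ := h F (mem_avoid_iff.2 (by rw [hF]; exact hx)) H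
          (mem_avoid_iff.2 (by rw [hH]; exact hy))
        rw [consec_iff] at h1 h2
        rw [hF] at h1
        rw [hH] at h2
        exact ⟨toStr Z, mem_avoid_iff.1 hZ, h1, h2⟩
      · exact ⟨_, hx, occ_self hx.sup, occ_empty hy.sup (by simp only; omega) hx.sup⟩
    · exact ⟨_, hy, occ_empty hx.sup (by simp only; omega) hy.sup, occ_self hy.sup⟩
  · intro h x hx y hy
    obtain ⟨⟨n, Z⟩, hz, h1, h2⟩ := h _ _ (mem_avoid_iff.1 hx) (mem_avoid_iff.1 hy)
    have hn : 1 ≤ n := by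
      obtain ⟨i, hi1, hi2, -⟩ := h1
      have := toStr_pos x
      simp only at hi2
      omega
    obtain ⟨F, hF⟩ := exists_toStr hn hz.sup hz.forest
    refine ⟨F, mem_avoid_iff.2 (by rw [hF]; exact hz), ?_, ?_⟩
    · rw [consec_iff, hF]; exact h1
    · rw [consec_iff, hF]; exact h2

theorem codes_unique {β : ℕ × List (ℕ × ℕ)} {F H : OForest} (hF : Codes β F)
    (hH : Codes β H) : F = H :=
  OForest.ext' (by rw [codes_iff.1 hF, codes_iff.1 hH])

theorem exists_code (F : OForest) : ∃ β, Codes β F := by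
  classical
  refine ⟨(F.n, ((Finset.univ : Finset (Fin F.n × Fin F.n)).filter
    (fun p => F.G.Adj p.1 p.2)).toList.map (fun p => ((p.1 : ℕ), (p.2 : ℕ)))), rfl, ?_⟩
  intro i j
  have key : ∀ i j : Fin F.n, ((i : ℕ), (j : ℕ)) ∈ (((Finset.univ : Finset
      (Fin F.n × Fin F.n)).filter (fun p => F.G.Adj p.1 p.2)).toList.map
      (fun p => ((p.1 : ℕ), (p.2 : ℕ)))) ↔ F.G.Adj i j := by
    intro i j
    simp only [List.mem_map, Finset.mem_toList, Finset.mem_filter, Finset.mem_univ, true_and,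
      Prod.mk.injEq, Prod.exists]
    constructor
    · rintro ⟨a, b, hab, h1, h2⟩
      rw [Fin.val_inj] at h1 h2
      subst h1 h2
      exact hab
    · intro h
      exact ⟨i, j, h, rfl, rfl⟩
  simp only [key]
  constructor
  · intro h
    exact ⟨h.ne, Or.inl h⟩
  · rintro ⟨_, h | h⟩
    · exact h
    · exact h.symm

theorem forestsOf_finite (B : Code) : (forestsOf B).Finite := by
  have : forestsOf B = ⋃ β ∈ {β | β ∈ B}, {F | Codes β F} := by
    ext F
    simp [forestsOf]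
  rw [this]
  apply Set.Finite.biUnion (List.finite_toSet B)
  intro β _
  exact Set.Subsingleton.finite (fun F hF H hH => codes_unique hF hH)

theorem exists_forestsOf {S : Set OForest} (hS : S.Finite) : ∃ B, forestsOf B = S := by
  classical
  choose g hg using exists_code
  refine ⟨hS.toFinset.toList.map g, ?_⟩
  ext F
  simp only [forestsOf, mem_ofPred_eq, List.mem_map, Finset.mem_toList, Finite.mem_toFinset]
  constructor
  · rintro ⟨β, ⟨H, hH, rfl⟩, hF⟩
    rw [codes_unique hF (hg H)]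
    exact hH
  · intro hF
    exact ⟨g F, ⟨F, hF, rfl⟩, hg F⟩

/-- The atomicity problem for ordered forests under the consecutive order is decidable. -/
theorem main :
    (∀ S : Set OForest, S.Finite ↔ ∃ B, forestsOf B = S) ∧
      ComputablePred fun B : List (ℕ × List (ℕ × ℕ)) => Atomic (avoid (forestsOf B)) := by
  refine ⟨fun S => ⟨exists_forestsOf, ?_⟩, ?_⟩
  · rintro ⟨B, rfl⟩
    exact forestsOf_finite B
  · exact computable_jep.of_eq fun B => (atomic_avoid_iff B).symm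

end Pool.Agent.Work.MP_ab000d_co
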