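import Pool.Agent.Work.MP_ab000d_co.Code

set_option autoImplicit false

namespace Pool.Agent.Work.MP_ab000d_co

namespace P

variable {α β γ : Type} [Primcodable α] [Primcodable β] [Primcodable γ]

theorem self : Primrec fun a : α => a := Primrec.id

theorem fst {f : α → β × γ} (hf : Primrec f) : Primrec fun a => (f a).1 := Primrec.fst.comp hf

theorem snd {f : α → β × γ} (hf : Primrec f) : Primrec fun a => (f a).2 := Primrec.snd.comp hf

theorem add {f g : α → ℕ} (hf : Primrec f) (hg : Primrec g) : Primrec fun a => f a + g a :=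
  Primrec.nat_add.comp hf hg

theorem sub {f g : α → ℕ} (hf : Primrec f) (hg : Primrec g) : Primrec fun a => f a - g a :=
  Primrec.nat_sub.comp hf hg

theorem mul {f g : α → ℕ} (hf : Primrec f) (hg : Primrec g) : Primrec fun a => f a * g a :=
  Primrec.nat_mul.comp hf hg

theorem div {f g : α → ℕ} (hf : Primrec f) (hg : Primrec g) : Primrec fun a => f a / g a :=
  Primrec.nat_div.comp hf hg

theorem mod {f g : α → ℕ} (hf : Primrec f) (hg : Primrec g) : Primrec fun a => f a % g a :=
  Primrec.nat_mod.comp hf hg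

theorem pow2 {f : α → ℕ} (hf : Primrec f) : Primrec fun a => 2 ^ f a := by
  have h1 : Primrec fun n : ℕ => 2 ^ n := by
    have h2 : Primrec₂ fun (_ : Unit) (n : ℕ) =>
        (Nat.rec (motive := fun _ => ℕ) 1 (fun _ IH => IH * 2) n : ℕ) :=
      Primrec.nat_rec (f := fun _ : Unit => 1) (g := fun _ p => p.2 * 2) (Primrec.const 1)
        (Primrec.nat_mul.comp (Primrec.snd.comp Primrec.snd) (Primrec.const 2))
    have h3 := h2.comp (Primrec.const (α := ℕ) ()) Primrec.id
    refine h3.of_eq ?_
    intro n
    simp only [id]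
    induction n with
    | zero => rfl
    | succ n ih => rw [pow_succ, ← ih]
  exact h1.comp hf

theorem lt {f g : α → ℕ} (hf : Primrec f) (hg : Primrec g) : PrimrecPred fun a => f a < g a :=
  Primrec.nat_lt.comp hf hg

theorem le {f g : α → ℕ} (hf : Primrec f) (hg : Primrec g) : PrimrecPred fun a => f a ≤ g a :=
  Primrec.nat_le.comp hf hg

theorem eq {f g : α → β} (hf : Primrec f) (hg : Primrec g) : PrimrecPred fun a => f a = g a :=
  Primrec.eq.comp hf hg

theorem and {p q : α → Prop} (hp : PrimrecPred p) (hq : PrimrecPred q) :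
    PrimrecPred fun a => p a ∧ q a := hp.and hq

theorem or {p q : α → Prop} (hp : PrimrecPred p) (hq : PrimrecPred q) :
    PrimrecPred fun a => p a ∨ q a := hp.or hq

theorem not {p : α → Prop} (hp : PrimrecPred p) : PrimrecPred fun a => ¬ p a := hp.not

theorem imp {p q : α → Prop} (hp : PrimrecPred p) (hq : PrimrecPred q) :
    PrimrecPred fun a => p a → q a :=
  (hp.not.or hq).of_eq fun a => by tauto

theorem iff {p q : α → Prop} (hp : PrimrecPred p) (hq : PrimrecPred q) :
    PrimrecPred fun a => p a ↔ q a :=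
  ((hp.and hq).or (hp.not.and hq.not)).of_eq fun a => by tauto

theorem exL {L : α → List β} {p : α → β → Prop} (hL : Primrec L)
    (hp : PrimrecPred fun q : α × β => p q.1 q.2) : PrimrecPred fun a => ∃ x ∈ L a, p a x := by
  have h1 : PrimrecRel fun (x : β) (a : α) => p a x :=
    hp.comp (Primrec.snd.pair Primrec.fst)
  exact h1.exists_mem_list.comp hL Primrec.id

theorem allL {L : α → List β} {p : α → β → Prop} (hL : Primrec L)
    (hp : PrimrecPred fun q : α × β => p q.1 q.2) : PrimrecPred fun a => ∀ x ∈ L a, p a x := by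
  have h1 : PrimrecRel fun (x : β) (a : α) => p a x :=
    hp.comp (Primrec.snd.pair Primrec.fst)
  exact h1.forall_mem_list.comp hL Primrec.id

theorem ex {f : α → ℕ} {p : α → ℕ → Prop} (hf : Primrec f)
    (hp : PrimrecPred fun q : α × ℕ => p q.1 q.2) : PrimrecPred fun a => ∃ x < f a, p a x :=
  (exL (Primrec.list_range.comp hf) hp).of_eq fun a => by simp only [List.mem_range]

theorem all {f : α → ℕ} {p : α → ℕ → Prop} (hf : Primrec f)
    (hp : PrimrecPred fun q : α × ℕ => p q.1 q.2) : PrimrecPred fun a => ∀ x < f a, p a x :=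
  (allL (Primrec.list_range.comp hf) hp).of_eq fun a => by simp only [List.mem_range]

theorem mem {L : α → List β} {f : α → β} (hL : Primrec L) (hf : Primrec f) :
    PrimrecPred fun a => f a ∈ L a := by
  refine (exL (p := fun a x => x = f a) hL ?_).of_eq ?_
  · exact Primrec.eq.comp Primrec.snd (hf.comp Primrec.fst)
  · intro a
    simp

end P

variable {α : Type} [Primcodable α]

theorem bit_prim {s v : α → ℕ} (hs : Primrec s) (hv : Primrec v) :
    PrimrecPred fun a => bit (s a) (v a) := by
  unfold bit
  exact P.eq (P.mod (P.div hs (P.pow2 hv)) (Primrec.const 2)) (Primrec.const 1)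

theorem adj_prim {n c i j : α → ℕ} (hn : Primrec n) (hc : Primrec c) (hi : Primrec i)
    (hj : Primrec j) : PrimrecPred fun a => adj (n a) (c a) (i a) (j a) := by
  unfold adj
  exact P.and (P.lt hi hj) (P.and (P.lt hj hn) (bit_prim hc (P.add (P.mul hi hn) hj)))

theorem conn_prim {n c l r u v : α → ℕ} (hn : Primrec n) (hc : Primrec c) (hl : Primrec l)
    (hr : Primrec r) (hu : Primrec u) (hv : Primrec v) :
    PrimrecPred fun a => connN (n a) (c a) (l a) (r a) (u a) (v a) := by
  unfold connN
  repeat' with_reducible first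
    | exact P.self
    | exact Primrec.const _
    | refine P.all ?_ ?_
    | refine P.ex ?_ ?_
    | refine P.and ?_ ?_
    | refine P.or ?_ ?_
    | refine P.iff ?_ ?_
    | refine P.not ?_
    | refine adj_prim ?_ ?_ ?_ ?_
    | refine bit_prim ?_ ?_
    | refine P.lt ?_ ?_
    | refine P.le ?_ ?_
    | refine P.eq ?_ ?_
    | refine P.imp ?_ ?_
    | refine P.add ?_ ?_
    | refine P.sub ?_ ?_
    | refine P.mul ?_ ?_
    | refine P.pow2 ?_
    | refine Primrec.comp hn ?_
    | refine Primrec.comp hc ?_
    | refine Primrec.comp hl ?_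
    | refine Primrec.comp hr ?_
    | refine Primrec.comp hu ?_
    | refine Primrec.comp hv ?_
    | refine P.fst ?_
    | refine P.snd ?_

theorem forest_prim {n c : α → ℕ} (hn : Primrec n) (hc : Primrec c) :
    PrimrecPred fun a => forestN (n a) (c a) := by
  unfold forestN
  repeat' with_reducible first
    | exact P.self
    | exact Primrec.const _
    | refine P.all ?_ ?_
    | refine P.ex ?_ ?_
    | refine P.and ?_ ?_
    | refine P.or ?_ ?_
    | refine P.iff ?_ ?_
    | refine P.not ?_
    | refine adj_prim ?_ ?_ ?_ ?_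
    | refine bit_prim ?_ ?_
    | refine P.lt ?_ ?_
    | refine P.le ?_ ?_
    | refine P.eq ?_ ?_
    | refine P.imp ?_ ?_
    | refine P.add ?_ ?_
    | refine P.sub ?_ ?_
    | refine P.mul ?_ ?_
    | refine P.pow2 ?_
    | refine Primrec.comp hn ?_
    | refine Primrec.comp hc ?_
    | refine P.fst ?_
    | refine P.snd ?_

theorem occ_prim {m d n c i : α → ℕ} (hm : Primrec m) (hd : Primrec d) (hn : Primrec n)
    (hc : Primrec c) (hi : Primrec i) :
    PrimrecPred fun a => occN (m a) (d a) (n a) (c a) (i a) := by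
  unfold occN
  repeat' with_reducible first
    | exact P.self
    | exact Primrec.const _
    | refine P.all ?_ ?_
    | refine P.ex ?_ ?_
    | refine P.and ?_ ?_
    | refine P.or ?_ ?_
    | refine P.iff ?_ ?_
    | refine P.not ?_
    | refine adj_prim ?_ ?_ ?_ ?_
    | refine bit_prim ?_ ?_
    | refine P.lt ?_ ?_
    | refine P.le ?_ ?_
    | refine P.eq ?_ ?_
    | refine P.imp ?_ ?_
    | refine P.add ?_ ?_
    | refine P.sub ?_ ?_
    | refine P.mul ?_ ?_
    | refine P.pow2 ?_
    | refine Primrec.comp hm ?_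
    | refine Primrec.comp hd ?_
    | refine Primrec.comp hn ?_
    | refine Primrec.comp hc ?_
    | refine Primrec.comp hi ?_
    | refine P.fst ?_
    | refine P.snd ?_

theorem adjB_prim {β : α → ℕ × List (ℕ × ℕ)} {p q : α → ℕ} (hβ : Primrec β) (hp : Primrec p)
    (hq : Primrec q) : PrimrecPred fun a => adjB (β a) (p a) (q a) := by
  unfold adjB
  refine P.and (P.lt hp hq) (P.and (P.lt hq (P.fst hβ)) (P.or ?_ ?_))
  · exact P.mem (P.snd hβ) (hp.pair hq)
  · exact P.mem (P.snd hβ) (hq.pair hp)

theorem free_prim {B : α → Code} {n c : α → ℕ} (hB : Primrec B) (hn : Primrec n)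
    (hc : Primrec c) : PrimrecPred fun a => freeN (B a) (n a) (c a) := by
  unfold freeN
  refine P.allL hB ?_
  repeat' with_reducible first
    | exact P.self
    | exact Primrec.const _
    | refine P.all ?_ ?_
    | refine P.ex ?_ ?_
    | refine P.and ?_ ?_
    | refine P.or ?_ ?_
    | refine P.iff ?_ ?_
    | refine P.not ?_
    | refine adj_prim ?_ ?_ ?_ ?_
    | refine adjB_prim ?_ ?_ ?_
    | refine bit_prim ?_ ?_
    | refine P.lt ?_ ?_
    | refine P.le ?_ ?_
    | refine P.eq ?_ ?_
    | refine P.imp ?_ ?_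
    | refine P.add ?_ ?_
    | refine P.sub ?_ ?_
    | refine P.mul ?_ ?_
    | refine P.pow2 ?_
    | refine Primrec.comp hn ?_
    | refine Primrec.comp hc ?_
    | refine P.fst ?_
    | refine P.snd ?_

theorem av_prim {B : α → Code} {n c : α → ℕ} (hB : Primrec B) (hn : Primrec n)
    (hc : Primrec c) : PrimrecPred fun a => avN (B a) (n a) (c a) := by
  unfold avN
  exact P.and (forest_prim hn hc) (free_prim hB hn hc)

theorem pumpK_prim {b : α → ℕ} (hb : Primrec b) : Primrec fun a => pumpK (b a) := by
  unfold pumpK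
  exact P.add hb (P.mul (P.pow2 (P.mul hb hb)) (P.pow2 (P.mul hb hb)))

theorem bound_prim {B : α → Code} (hB : Primrec B) : Primrec fun a => bound (B a) := by
  unfold bound
  refine Primrec.list_foldl (h := fun _ q => q.1 + q.2) (Primrec.list_map hB ?_)
    (Primrec.const 1) ?_
  · exact Primrec.fst.comp Primrec.snd
  · exact P.add (P.fst Primrec.snd) (P.snd Primrec.snd)

theorem all_prim {B : α → Code} {N K c : α → ℕ} (hB : Primrec B) (hN : Primrec N)
    (hK : Primrec K) (hc : Primrec c) : PrimrecPred fun a => allN (B a) (N a) (K a) (c a) := by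
  unfold allN
  repeat' with_reducible first
    | exact P.self
    | exact Primrec.const _
    | refine P.all ?_ ?_
    | refine P.ex ?_ ?_
    | refine P.and ?_ ?_
    | refine P.or ?_ ?_
    | refine P.iff ?_ ?_
    | refine P.not ?_
    | refine adj_prim ?_ ?_ ?_ ?_
    | refine av_prim ?_ ?_ ?_
    | refine occ_prim ?_ ?_ ?_ ?_ ?_
    | refine P.lt ?_ ?_
    | refine P.le ?_ ?_
    | refine P.eq ?_ ?_
    | refine P.imp ?_ ?_
    | refine P.add ?_ ?_
    | refine P.sub ?_ ?_
    | refine P.mul ?_ ?_
    | refine P.pow2 ?_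
    | refine Primrec.comp hB ?_
    | refine Primrec.comp hN ?_
    | refine Primrec.comp hK ?_
    | refine Primrec.comp hc ?_
    | refine P.fst ?_
    | refine P.snd ?_

theorem C0_prim {B : α → Code} {b K : α → ℕ} (hB : Primrec B) (hb : Primrec b)
    (hK : Primrec K) : PrimrecPred fun a => C0N (B a) (b a) (K a) := by
  unfold C0N
  repeat' with_reducible first
    | exact P.self
    | exact Primrec.const _
    | refine P.all ?_ ?_
    | refine P.ex ?_ ?_
    | refine P.and ?_ ?_
    | refine P.or ?_ ?_
    | refine P.iff ?_ ?_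
    | refine P.not ?_
    | refine adj_prim ?_ ?_ ?_ ?_
    | refine av_prim ?_ ?_ ?_
    | refine occ_prim ?_ ?_ ?_ ?_ ?_
    | refine P.lt ?_ ?_
    | refine P.le ?_ ?_
    | refine P.eq ?_ ?_
    | refine P.imp ?_ ?_
    | refine P.add ?_ ?_
    | refine P.sub ?_ ?_
    | refine P.mul ?_ ?_
    | refine P.pow2 ?_
    | refine pumpK_prim ?_
    | refine Primrec.comp hB ?_
    | refine Primrec.comp hb ?_
    | refine Primrec.comp hK ?_
    | refine P.fst ?_
    | refine P.snd ?_

theorem C1_prim {B : α → Code} {b K : α → ℕ} (hB : Primrec B) (hb : Primrec b)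
    (hK : Primrec K) : PrimrecPred fun a => C1N (B a) (b a) (K a) := by
  unfold C1N
  repeat' with_reducible first
    | exact P.self
    | exact Primrec.const _
    | refine P.all ?_ ?_
    | refine P.ex ?_ ?_
    | refine P.and ?_ ?_
    | refine P.or ?_ ?_
    | refine P.iff ?_ ?_
    | refine P.not ?_
    | refine adj_prim ?_ ?_ ?_ ?_
    | refine av_prim ?_ ?_ ?_
    | refine occ_prim ?_ ?_ ?_ ?_ ?_
    | refine conn_prim ?_ ?_ ?_ ?_ ?_ ?_
    | refine P.lt ?_ ?_
    | refine P.le ?_ ?_
    | refine P.eq ?_ ?_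
    | refine P.imp ?_ ?_
    | refine P.add ?_ ?_
    | refine P.sub ?_ ?_
    | refine P.mul ?_ ?_
    | refine P.pow2 ?_
    | refine pumpK_prim ?_
    | refine Primrec.comp hB ?_
    | refine Primrec.comp hb ?_
    | refine Primrec.comp hK ?_
    | refine P.fst ?_
    | refine P.snd ?_

theorem C3_prim {B : α → Code} {K : α → ℕ} (hB : Primrec B)
    (hK : Primrec K) : PrimrecPred fun a => C3N (B a) (K a) := by
  unfold C3N
  repeat' with_reducible first
    | exact P.self
    | exact Primrec.const _
    | refine P.all ?_ ?_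
    | refine P.ex ?_ ?_
    | refine P.and ?_ ?_
    | refine av_prim ?_ ?_ ?_
    | refine all_prim ?_ ?_ ?_ ?_
    | refine P.add ?_ ?_
    | refine P.sub ?_ ?_
    | refine P.mul ?_ ?_
    | refine P.pow2 ?_
    | refine Primrec.comp hB ?_
    | refine Primrec.comp hK ?_
    | refine P.fst ?_
    | refine P.snd ?_

theorem C2R_prim {B : α → Code} {b K : α → ℕ} (hB : Primrec B) (hb : Primrec b)
    (hK : Primrec K) : PrimrecPred fun a => C2RN (B a) (b a) (K a) := by
  unfold C2RN
  repeat' with_reducible first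
    | exact P.self
    | exact Primrec.const _
    | refine P.all ?_ ?_
    | refine P.ex ?_ ?_
    | refine P.and ?_ ?_
    | refine P.or ?_ ?_
    | refine P.iff ?_ ?_
    | refine P.not ?_
    | refine adj_prim ?_ ?_ ?_ ?_
    | refine av_prim ?_ ?_ ?_
    | refine all_prim ?_ ?_ ?_ ?_
    | refine P.lt ?_ ?_
    | refine P.le ?_ ?_
    | refine P.eq ?_ ?_
    | refine P.imp ?_ ?_
    | refine P.add ?_ ?_
    | refine P.sub ?_ ?_
    | refine P.mul ?_ ?_
    | refine P.pow2 ?_
    | refine Primrec.comp hB ?_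
    | refine Primrec.comp hb ?_
    | refine Primrec.comp hK ?_
    | refine P.fst ?_
    | refine P.snd ?_

theorem C2L_prim {B : α → Code} {b K : α → ℕ} (hB : Primrec B) (hb : Primrec b)
    (hK : Primrec K) : PrimrecPred fun a => C2LN (B a) (b a) (K a) := by
  unfold C2LN
  repeat' with_reducible first
    | exact P.self
    | exact Primrec.const _
    | refine P.all ?_ ?_
    | refine P.ex ?_ ?_
    | refine P.and ?_ ?_
    | refine P.or ?_ ?_
    | refine P.iff ?_ ?_
    | refine P.not ?_
    | refine adj_prim ?_ ?_ ?_ ?_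
    | refine av_prim ?_ ?_ ?_
    | refine all_prim ?_ ?_ ?_ ?_
    | refine P.lt ?_ ?_
    | refine P.le ?_ ?_
    | refine P.eq ?_ ?_
    | refine P.imp ?_ ?_
    | refine P.add ?_ ?_
    | refine P.sub ?_ ?_
    | refine P.mul ?_ ?_
    | refine P.pow2 ?_
    | refine Primrec.comp hB ?_
    | refine Primrec.comp hb ?_
    | refine Primrec.comp hK ?_
    | refine P.fst ?_
    | refine P.snd ?_

theorem re_exists {p : α → ℕ → Prop} (hp : PrimrecPred fun q : α × ℕ => p q.1 q.2) :
    REPred fun a => ∃ k, p a k := by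
  classical
  have h1 : Partrec₂ fun (a : α) => ((fun k : ℕ => Part.some (decide (p a k))) : ℕ →. Bool) :=
    hp.decide.to_comp.partrec
  have h2 := Partrec.rfind h1
  have h3 := Partrec.dom_re h2
  refine h3.of_eq ?_
  intro a
  constructor
  · intro h
    obtain ⟨n, hn, -⟩ := Nat.rfind_dom.1 h
    exact ⟨n, by simpa using hn⟩
  · rintro ⟨n, hn⟩
    exact Nat.rfind_dom.2 ⟨n, by simpa using hn, fun _ => trivial⟩

/-- **Decidability of joint embedding.** -/
theorem computable_jep : ComputablePred fun B : Code => JEP (strs B) := by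
  classical
  rw [ComputablePred.computable_iff_re_compl_re]
  constructor
  · refine (re_exists (p := fun (B : Code) K => C1N B (bound B) K ∨ C3N B K ∨
      C2RN B (bound B) K ∨ C2LN B (bound B) K) ?_).of_eq ?_
    · exact P.or (C1_prim Primrec.fst (bound_prim Primrec.fst) Primrec.snd)
        (P.or (C3_prim Primrec.fst Primrec.snd)
          (P.or (C2R_prim Primrec.fst (bound_prim Primrec.fst) Primrec.snd)
            (C2L_prim Primrec.fst (bound_prim Primrec.fst) Primrec.snd)))
    · intro B
      rw [jep_iff' (bd_strs B) (one_le_bound B)]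
      simp only [C1_iff, C3_iff, C2R_iff, C2L_iff]
  · refine (re_exists (p := fun (B : Code) K => C0N B (bound B) K) ?_).of_eq ?_
    · exact C0_prim Primrec.fst (bound_prim Primrec.fst) Primrec.snd
    · intro B
      rw [not_jep_iff (bd_strs B)]
      simp only [C0_iff]

end Pool.Agent.Work.MP_ab000d_co
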