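import Pool.Agent.Work.MP_ab000d_co.Irr

set_option autoImplicit false

namespace Pool.Agent.Work.MP_ab000d_co

open Set Submodule

variable {B : Set Str} {b : ℕ}

/-- The pumping constant. -/
def pumpK (b : ℕ) : ℕ := b + 2 ^ (b * b) * 2 ^ (b * b)

/-- The state at the cut `p`. -/
def st (b : ℕ) (Z : Set (ℤ × ℤ)) (a p : ℤ) : Set (Fin b × Fin b) × Set (Fin b × Fin b) :=
  ({q | (p - b + q.1, p - b + q.2) ∈ Z},
    {q | Conn (res Z a p) (p - b + q.1) (p - b + q.2)})

theorem st_window {Z : Set (ℤ × ℤ)} {a p p' : ℤ} (h : st b Z a p = st b Z a p')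
    (hlt : ∀ e ∈ Z, e.1 < e.2) :
    shf (p' - p) (res Z (p - b) p) = res Z (p' - b) p' := by
  have h1 := congrArg Prod.fst h
  simp only [st] at h1
  ext e
  simp only [mem_shf, mem_res]
  have key : ∀ s t : Fin b, ((p - b + s, p - b + t) ∈ Z ↔ (p' - b + s, p' - b + t) ∈ Z) := by
    intro s t
    have := congrArg (fun S => (s, t) ∈ S) h1
    simpa using this
  constructor
  · rintro ⟨h2, h3, h4⟩
    have h5 := hlt _ h2
    simp only at h5
    obtain ⟨s, hs⟩ : ∃ s : Fin b, p - b + s = e.1 - (p' - p) :=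
      ⟨⟨(e.1 - (p' - p) - (p - b)).toNat, by omega⟩, by simp only; omega⟩
    obtain ⟨t, ht⟩ : ∃ t : Fin b, p - b + t = e.2 - (p' - p) :=
      ⟨⟨(e.2 - (p' - p) - (p - b)).toNat, by omega⟩, by simp only; omega⟩
    have h6 := (key s t).1 (by rw [hs, ht]; exact h2)
    refine ⟨?_, by omega, by omega⟩
    convert h6 using 1
    ext <;> simp only <;> omega
  · rintro ⟨h2, h3, h4⟩
    have h5 := hlt _ h2
    obtain ⟨s, hs⟩ : ∃ s : Fin b, p - b + s = e.1 - (p' - p) :=
      ⟨⟨(e.1 - (p' - p) - (p - b)).toNat, by omega⟩, by simp only; omega⟩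
    obtain ⟨t, ht⟩ : ∃ t : Fin b, p - b + t = e.2 - (p' - p) :=
      ⟨⟨(e.2 - (p' - p) - (p - b)).toNat, by omega⟩, by simp only; omega⟩
    have h6 := (key s t).2 (by
      convert h2 using 1
      ext <;> simp only <;> omega)
    rw [hs, ht] at h6
    exact ⟨h6, by omega, by omega⟩

theorem st_conn {Z : Set (ℤ × ℤ)} {a p p' : ℤ} (h : st b Z a p = st b Z a p') {u v : ℤ}
    (hu : p' - b ≤ u) (hu' : u < p') (hv : p' - b ≤ v) (hv' : v < p')
    (hc : Conn (res Z a p) (u - (p' - p)) (v - (p' - p))) : Conn (res Z a p') u v := by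
  have h1 := congrArg Prod.snd h
  simp only [st] at h1
  have key : ∀ s t : Fin b, (Conn (res Z a p) (p - b + s) (p - b + t) ↔
      Conn (res Z a p') (p' - b + s) (p' - b + t)) := by
    intro s t
    have := congrArg (fun S => (s, t) ∈ S) h1
    simpa using this
  obtain ⟨s, hs⟩ : ∃ s : Fin b, p' - b + s = u :=
    ⟨⟨(u - (p' - b)).toNat, by omega⟩, by simp only; omega⟩
  obtain ⟨t, ht⟩ : ∃ t : Fin b, p' - b + t = v :=
    ⟨⟨(v - (p' - b)).toNat, by omega⟩, by simp only; omega⟩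
  have h2 := (key s t).1 (by
    convert hc using 1 <;> omega)
  rwa [hs, ht] at h2

/-- Shortening the middle part. -/
theorem pump_step (hb : Bd B b) {a c : ℤ} {Z : Set (ℤ × ℤ)} (hZ : Good B a c Z) {x y : Str}
    {i j : ℤ} (hx : OccAt x a c Z i) (hy : OccAt y a c Z j) (hij : i + x.1 + pumpK b < j) :
    ∃ a' Z', a < a' ∧ a' ≤ c ∧ Good B a' c Z' ∧ Occ x a' c Z' ∧ Occ y a' c Z' := by
  obtain ⟨hx1, hx2, hx3⟩ := id hx
  obtain ⟨hy1, hy2, hy3⟩ := id hy
  have hK : (pumpK b : ℤ) = b + 2 ^ (b * b) * 2 ^ (b * b) := by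
    unfold pumpK; push_cast; ring
  -- pigeonhole
  let f : Fin (2 ^ (b * b) * 2 ^ (b * b) + 1) → Set (Fin b × Fin b) × Set (Fin b × Fin b) :=
    fun t => st b Z i (i + x.1 + b + t)
  have hcard : Fintype.card (Set (Fin b × Fin b) × Set (Fin b × Fin b)) <
      Fintype.card (Fin (2 ^ (b * b) * 2 ^ (b * b) + 1)) := by
    simp [Fintype.card_set]
  obtain ⟨t, t', htt, hf⟩ := Fintype.exists_ne_map_eq_of_card_lt f hcard
  wlog hlt : t < t' generalizing t t' with H
  · exact H t' t htt.symm hf.symm (lt_of_le_of_ne (not_lt.1 hlt) htt.symm)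
  have ht' : (t' : ℤ) ≤ 2 ^ (b * b) * 2 ^ (b * b) := by
    have := t'.2
    have h2 : (t' : ℕ) ≤ 2 ^ (b * b) * 2 ^ (b * b) := by omega
    exact_mod_cast h2
  have hlt' : (t : ℤ) < t' := by exact_mod_cast hlt
  simp only [f] at hf
  set p : ℤ := i + x.1 + b + t with hp
  set p' : ℤ := i + x.1 + b + t' with hp'
  have hlt2 : ∀ e ∈ Z, e.1 < e.2 := fun e he => (hZ.sup e he).2.1
  have hw := st_window hf hlt2
  have hL : Good B (i + (p' - p)) p' (shf (p' - p) (res Z i p)) :=
    (hZ.rest hx1 (by omega)).shift' rfl (by ring)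
  have hZi : Good B i c (res Z i c) := hZ.rest hx1 le_rfl
  obtain ⟨h1, h2, h3⟩ := paste hb hL hZi (by omega) (by omega) (by omega) (by
    rw [res_shf, res_res (by omega) (by omega), res_res (by omega) (by omega), ← hw]
    congr 2 <;> ring) (by
    intro u v hu hu' hv hv' hc
    rw [conn_shf] at hc
    rw [res_res le_rfl (by omega)]
    exact st_conn hf hu hu' hv hv' hc)
  refine ⟨i + (p' - p), _, by omega, by omega, h1, ⟨i + (p' - p), ?_⟩, ⟨j, ?_⟩⟩
  · refine ⟨le_rfl, by omega, ?_⟩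
    rw [← res_res (E := _ ∪ _) (a := i + (p' - p)) (c := p') le_rfl (by omega), h2, res_shf,
      res_res (by omega) (by omega)]
    rw [show i + (p' - p) - (p' - p) = i by ring,
      show i + (p' - p) + (x.1 : ℤ) - (p' - p) = i + x.1 by ring, hx3, shf_shf]
    congr 1
    ring
  · refine ⟨by omega, hy2, ?_⟩
    rw [← res_res (E := _ ∪ _) (a := p' - b) (c := c) (by omega) (by omega), h3,
      res_res (by omega) (by omega), res_res (by omega) (by omega), hy3]

/-- If `x` and `y` have a common extension in `Av(B)`, they have one of bounded length. -/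
theorem pump (hb : Bd B b) {x y : Str} {a c : ℤ} {Z : Set (ℤ × ℤ)} (hac : a ≤ c)
    (hZ : Good B a c Z) (hx : Occ x a c Z) (hy : Occ y a c Z) :
    ∃ z : Str, z.1 ≤ x.1 + y.1 + pumpK b ∧ Av B z ∧ Occ x 0 z.1 z.2 ∧ Occ y 0 z.1 z.2 := by
  induction hn : (c - a).toNat using Nat.strong_induction_on generalizing a Z with
  | _ n ih =>
    obtain ⟨i, hi⟩ := hx
    obtain ⟨j, hj⟩ := hy
    obtain ⟨hi1, hi2, hi3⟩ := id hi
    obtain ⟨hj1, hj2, hj3⟩ := id hj
    by_cases h1 : i + x.1 + pumpK b < j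
    · obtain ⟨a', Z', ha, ha', hG, hx', hy'⟩ := pump_step hb hZ hi hj h1
      exact ih _ (by omega) ha' hG hx' hy' rfl
    · by_cases h2 : j + y.1 + pumpK b < i
      · obtain ⟨a', Z', ha, ha', hG, hy', hx'⟩ := pump_step hb hZ hj hi h2
        exact ih _ (by omega) ha' hG hx' hy' rfl
      · -- the hull is short
        have hG := hZ.rest (a' := min i j) (c' := max (i + x.1) (j + y.1)) (by omega) (by omega)
        have hle : min i j ≤ max (i + x.1) (j + y.1) := by omega
        refine ⟨_, ?_, hG.toAv hle, ?_, ?_⟩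
        · simp only; omega
        · exact Occ.of_good hle (hi.rest (by omega) (by omega))
        · exact Occ.of_good hle (hj.rest (by omega) (by omega))

end Pool.Agent.Work.MP_ab000d_co
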