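import Pool.Agent.Work.MP_ab000d_co.Exc

set_option autoImplicit false

namespace Pool.Agent.Work.MP_ab000d_co

open Set Submodule

variable {B : Set Str} {b : ℕ} {E F : Set (ℤ × ℤ)} {a c s : ℤ}

/-- Reflection of a set of edges. -/
def rf (E : Set (ℤ × ℤ)) : Set (ℤ × ℤ) := {e | (-1 - e.2, -1 - e.1) ∈ E}

theorem mem_rf {e : ℤ × ℤ} : e ∈ rf E ↔ (-1 - e.2, -1 - e.1) ∈ E := Iff.rfl

theorem rf_rf : rf (rf E) = E := by
  ext e
  simp only [mem_rf]
  rw [show -1 - (-1 - e.1) = e.1 by ring, show -1 - (-1 - e.2) = e.2 by ring]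

theorem rf_shf : rf (shf s E) = shf (-s) (rf E) := by
  ext e
  simp only [mem_rf, mem_shf]
  rw [show -1 - e.2 - s = -1 - (e.2 - -s) by ring, show -1 - e.1 - s = -1 - (e.1 - -s) by ring]

theorem rf_res : rf (res E a c) = res (rf E) (-c) (-a) := by
  ext e
  simp only [mem_rf, mem_res]
  constructor
  · rintro ⟨h1, h2, h3⟩; exact ⟨h1, by omega, by omega⟩
  · rintro ⟨h1, h2, h3⟩; exact ⟨h1, by omega, by omega⟩

theorem Sup.refl (h : Sup a c E) : Sup (-c) (-a) (rf E) := by
  intro e he
  have := h _ he
  simp only at this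
  omega

theorem conn_rf_of {u v : ℤ} (h : Conn (rf E) u v) : Conn E (-1 - u) (-1 - v) := by
  rw [conn_iff_closed] at h ⊢
  intro S hS hu
  exact h {w | -1 - w ∈ S} (fun e he => (hS _ he).symm) hu

theorem conn_rf {u v : ℤ} : Conn (rf E) u v ↔ Conn E (-1 - u) (-1 - v) := by
  constructor
  · exact conn_rf_of
  · intro h
    have := conn_rf_of (E := rf E) (u := -1 - u) (v := -1 - v) (by rwa [rf_rf])
    convert this using 1 <;> ring

theorem Forest.refl (h : Forest E) : Forest (rf E) := by
  rw [forest_iff] at h ⊢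
  intro e he
  have h1 := h _ he
  have h2 : rf E \ {e} = rf (E \ {(-1 - e.2, -1 - e.1)}) := by
    ext f
    simp only [mem_sdiff, mem_rf, mem_singleton_iff, Prod.ext_iff]
    constructor
    · rintro ⟨h3, h4⟩; refine ⟨h3, ?_⟩; rintro ⟨h5, h6⟩; exact h4 ⟨by omega, by omega⟩
    · rintro ⟨h3, h4⟩; refine ⟨h3, ?_⟩; rintro ⟨h5, h6⟩; exact h4 ⟨by omega, by omega⟩
  rw [h2, conn_rf]
  intro h3
  exact h1 h3.symm

/-- Reflection of a structure. -/
def rs (x : Str) : Str := (x.1, shf x.1 (rf x.2))

theorem rs_rs (x : Str) : rs (rs x) = x := by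
  unfold rs
  simp only [rf_shf, rf_rf, shf_shf, add_neg_cancel, shf_zero, Prod.mk.eta]

/-- Reflection of the basis. -/
def rB (B : Set Str) : Set Str := rs '' B

theorem rB_rB : rB (rB B) = B := by
  unfold rB
  rw [image_image]
  simp only [rs_rs, image_id']

theorem Bd.refl (h : Bd B b) : Bd (rB B) b := by
  rintro _ ⟨β, hβ, rfl⟩
  exact h β hβ

theorem Free.refl (h : Free B E a c) : Free (rB B) (rf E) (-c) (-a) := by
  rintro _ ⟨β, hβ, rfl⟩ i h1 h2 h3
  simp only [rs] at h2 h3
  apply h β hβ (-i - β.1) (by omega) (by omega)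
  have h4 := congrArg rf h3
  rw [rf_res, rf_rf, shf_shf, rf_shf, rf_rf] at h4
  rw [show -i - (β.1 : ℤ) = -(i + β.1) by ring, show -(i + (β.1 : ℤ)) + β.1 = -i by ring]
  exact h4

theorem Good.refl (h : Good B a c E) : Good (rB B) (-c) (-a) (rf E) :=
  ⟨h.sup.refl, h.forest.refl, h.free.refl⟩

theorem Av.refl {x : Str} (h : Av B x) : Av (rB B) (rs x) := by
  have h1 := Good.refl h
  exact h1.shift' (by rw [neg_add_cancel]) (by simp only [rs]; ring)

theorem OccAt.refl {x : Str} {Z : Set (ℤ × ℤ)} {i : ℤ} (h : OccAt x a c Z i) :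
    OccAt (rs x) (-c) (-a) (rf Z) (-i - x.1) := by
  obtain ⟨h1, h2, h3⟩ := h
  refine ⟨by omega, by simp only [rs]; omega, ?_⟩
  have h4 := congrArg rf h3
  rw [rf_res, rf_shf] at h4
  simp only [rs, shf_shf]
  rw [show -i - (x.1 : ℤ) + x.1 = -i by ring, ← h4]
  congr 1
  ring

theorem Occ.refl {x : Str} {n : ℕ} {Z : Set (ℤ × ℤ)} (h : Occ x 0 n Z) :
    Occ (rs x) 0 n (shf n (rf Z)) := by
  obtain ⟨i, hi⟩ := h
  have := hi.refl.shift (s := n)
  rw [neg_add_cancel, neg_zero, zero_add] at this
  exact ⟨_, this⟩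

theorem JEP.refl (h : JEP B) : JEP (rB B) := by
  intro x y hx hy
  have hx' := hx.refl
  have hy' := hy.refl
  rw [rB_rB] at hx' hy'
  obtain ⟨z, hz, h1, h2⟩ := h _ _ hx' hy'
  refine ⟨rs z, hz.refl, ?_, ?_⟩
  · have := h1.refl
    rwa [rs_rs] at this
  · have := h2.refl
    rwa [rs_rs] at this

theorem jep_refl_iff : JEP (rB B) ↔ JEP B :=
  ⟨fun h => by simpa [rB_rB] using h.refl, fun h => h.refl⟩

theorem Ext.refl {t : Str} (h : Ext B t a c E) :
    Ext (rB B) (rs t) (-c + t.1) (-a + t.1) (shf t.1 (rf E)) := by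
  refine ⟨h.good.refl.shift, ?_⟩
  have := h.occ.refl.shift (s := t.1)
  convert this using 1
  ring

theorem Uq.refl {t : Str} (h : Uq B t) : Uq (rB B) (rs t) := by
  refine ⟨h.pos, h.av.refl, ?_⟩
  intro a c E hE i j hi hj
  have h1 := hE.refl
  rw [rB_rB] at h1
  have h2 := hi.refl
  have h3 := hj.refl
  rw [rs_rs] at h2 h3
  have := h.uniq _ _ _ h1 _ _ h2 h3
  omega

theorem RU.refl {t : Str} (h : RU B t) : LU (rB B) (rs t) := by
  intro N
  obtain ⟨a, c, E, hE, hc⟩ := h (t.1 - N)
  exact ⟨_, _, _, hE.refl, by omega⟩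

theorem LU.refl {t : Str} (h : LU B t) : RU (rB B) (rs t) := by
  intro N
  obtain ⟨a, c, E, hE, hc⟩ := h (t.1 - N)
  exact ⟨_, _, _, hE.refl, by omega⟩

/-- **Necessity.** -/
theorem exists_of_jep (hb : Bd B b) (hj : JEP B) :
    ∃ K, C1 B b K ∨ C3 B K ∨ C2R B b K ∨ C2R (rB B) b K := by
  by_cases hi : Irr B
  · obtain ⟨K, hK⟩ := C1_of_irr hb hi
    exact ⟨K, Or.inl hK⟩
  · obtain ⟨t, hu⟩ := exists_uq hj hi
    by_cases hr : RU B t
    · by_cases hl : LU B t
      · exact (not_both hj hu hb hr hl).elim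
      · obtain ⟨K, hK⟩ := C2R_of_RU hj hu hb hr hl
        exact ⟨K, Or.inr (Or.inr (Or.inl hK))⟩
    · by_cases hl : LU B t
      · have hr' : ¬ LU (rB B) (rs t) := by
          intro h
          apply hr
          have := h.refl
          rwa [rB_rB, rs_rs] at this
        obtain ⟨K, hK⟩ := C2R_of_RU hj.refl hu.refl hb.refl hl.refl hr'
        exact ⟨K, Or.inr (Or.inr (Or.inr hK))⟩
      · obtain ⟨K, hK⟩ := C3_of_bounded hj hu hr hl
        exact ⟨K, Or.inr (Or.inl hK)⟩

theorem C3.jep {K : ℕ} (h : C3 B K) : JEP B := by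
  obtain ⟨Z, hZ, hocc⟩ := h
  have hlen : ∀ x, Av B x → x.1 ≤ K := by
    intro x hx
    by_contra hcon
    have h1 : Av B (K + 1, res x.2 0 (K + 1)) := by
      have := Good.rest hx (a' := 0) (c' := K + 1) le_rfl (by omega)
      unfold Av
      simp only
      exact_mod_cast this
    obtain ⟨i, hi1, hi2, -⟩ := hocc _ le_rfl h1
    simp only at hi2
    push_cast at hi2
    omega
  intro x y hx hy
  exact ⟨(K, Z), hZ, hocc x (by have := hlen x hx; omega) hx,
    hocc y (by have := hlen y hy; omega) hy⟩

/-- The infinite structure of the case `C2R`. -/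
def inf (Z : Set (ℤ × ℤ)) (m : ℕ) : Set (ℤ × ℤ) := Z ∪ {e | (m : ℤ) - 1 ≤ e.1 ∧ e.2 = e.1 + 1}

theorem C2R.jep (hb : Bd B b) {K : ℕ} (h : C2R B b K) : JEP B := by
  obtain ⟨Z, hZ, m, hm1, hmK, htail, hocc⟩ := h
  unfold Av at hZ
  simp only at hZ
  -- edges of the infinite structure
  have hI1 : ∀ u v : ℤ, v < K → ((u, v) ∈ inf Z m ↔ (u, v) ∈ Z) := by
    intro u v hv
    constructor
    · rintro (h | ⟨h1, h2⟩)
      · exact h
      · simp only at h1 h2
        exact (htail v (by omega) hv u).2 (by omega)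
    · exact Or.inl
  have hI2 : ∀ u v : ℤ, m ≤ v → ((u, v) ∈ inf Z m ↔ u = v - 1) := by
    intro u v hv
    by_cases h1 : v < K
    · rw [hI1 u v h1]
      exact htail v hv h1 u
    · constructor
      · rintro (h | ⟨h2, h3⟩)
        · have := (hZ.sup _ h).2.2
          simp only at this
          omega
        · simp only at h3
          omega
      · rintro rfl
        right
        constructor <;> simp only <;> omega
  have hsup : ∀ k : ℤ, Sup 0 k (res (inf Z m) 0 k) := by
    intro k e he
    refine ⟨he.2.1, ?_, he.2.2⟩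
    rcases he.1 with h | ⟨h1, h2⟩
    · exact (hZ.sup _ h).2.1
    · omega
  have hforest : ∀ k : ℕ, Forest (res (inf Z m) 0 (m + k : ℕ)) := by
    intro k
    induction k with
    | zero =>
      apply hZ.forest.mono
      rintro ⟨u, v⟩ he
      exact (hI1 u v (by have := he.2.2; simp only at this; omega)).1 he.1
    | succ k ih =>
      have h1 : res (inf Z m) 0 (m + (k + 1) : ℕ) =
          insert ((m : ℤ) + k - 1, (m : ℤ) + k) (res (inf Z m) 0 (m + k : ℕ)) := by
        ext ⟨u, v⟩
        simp only [mem_insert_iff, mem_res, Prod.mk.injEq]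
        constructor
        · rintro ⟨h1, h2, h3⟩
          by_cases h4 : v < (m + k : ℕ)
          · exact Or.inr ⟨h1, h2, h4⟩
          · left
            have := (hI2 u v (by omega)).1 h1
            push_cast at *
            omega
        · rintro (⟨rfl, rfl⟩ | ⟨h1, h2, h3⟩)
          · refine ⟨(hI2 _ _ (by omega)).2 rfl, by omega, by push_cast; omega⟩
          · exact ⟨h1, h2, by push_cast at *; omega⟩
      rw [h1]
      apply ih.insert
      intro hc
      have := (hc.closed {(m : ℤ) + k} (by
        intro e he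
        have h2 := (hsup _ e he)
        push_cast at h2
        simp only [mem_singleton_iff]
        constructor <;> intro h3 <;> omega)).2 rfl
      simp only [mem_singleton_iff] at this
      omega
  have hgood : ∀ k : ℕ, Good B 0 k (res (inf Z m) 0 k) := by
    intro k
    refine ⟨hsup k, (hforest k).mono (res_mono' le_rfl (by omega)), ?_⟩
    intro β hβ i hi hi' heq
    have hβb := hb β hβ
    rw [res_res hi hi'] at heq
    by_cases h1 : i + β.1 ≤ K
    · apply hZ.free β hβ i hi h1
      rw [← heq]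
      ext ⟨u, v⟩
      simp only [mem_res]
      constructor
      · rintro ⟨h2, h3, h4⟩
        exact ⟨(hI1 u v (by omega)).2 h2, h3, h4⟩
      · rintro ⟨h2, h3, h4⟩
        exact ⟨(hI1 u v (by omega)).1 h2, h3, h4⟩
    · apply hZ.free β hβ m (by omega) (by omega)
      have h2 : res Z m (m + β.1) = shf (m - i) (res (inf Z m) i (i + β.1)) := by
        ext ⟨u, v⟩
        simp only [mem_res, mem_shf]
        constructor
        · rintro ⟨h2, h3, h4⟩
          have h5 := (hZ.sup _ h2).2.1
          simp only at h5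
          have h6 := (htail v (by omega) (by omega) u).1 h2
          refine ⟨(hI2 _ _ (by omega)).2 (by omega), by omega, by omega⟩
        · rintro ⟨h2, h3, h4⟩
          have h5 := (hsup k) _ (show (u - (m - i), v - (m - i)) ∈ res (inf Z m) 0 k from
            ⟨h2, by simp only; omega, by simp only; omega⟩)
          simp only at h5
          have h6 := (hI2 _ _ (by omega)).1 h2
          refine ⟨(htail v (by omega) (by omega) u).2 (by omega), by omega, by omega⟩
      rw [h2, heq, shf_shf]
      congr 1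
      ring
  -- every member occurs
  have hall : ∀ n : ℕ, ∀ X, Av B (n, X) → ∃ i : ℤ, 0 ≤ i ∧
      res (inf Z m) i (i + n) = shf i X := by
    intro n
    induction n with
    | zero =>
      intro X hX
      refine ⟨0, le_rfl, ?_⟩
      have h1 : X = ∅ := by
        apply eq_empty_of_forall_notMem
        intro e he
        have := hX.sup e he
        simp only at this
        omega
      rw [h1]
      apply eq_empty_of_forall_notMem
      rintro e ⟨he, h2, h3⟩
      have := (hsup 1) e ⟨he, h2, by simp only [Nat.cast_zero] at h3; omega⟩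
      simp only [Nat.cast_zero] at h3
      omega
    | succ n ih =>
      intro X hX
      by_cases hn : n + 1 ≤ m + b + 2
      · obtain ⟨i, hi1, hi2, hi3⟩ := hocc (n + 1, X) hn hX
        simp only at hi2 hi3
        refine ⟨i, hi1, ?_⟩
        rw [← hi3]
        ext ⟨u, v⟩
        simp only [mem_res]
        constructor
        · rintro ⟨h2, h3, h4⟩
          exact ⟨(hI1 u v (by omega)).1 h2, h3, h4⟩
        · rintro ⟨h2, h3, h4⟩
          exact ⟨(hI1 u v (by omega)).2 h2, h3, h4⟩
      · have hXg : Good B 0 (n + 1 : ℕ) X := hX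
        have hX1 : Good B 0 n (res X 0 n) := hXg.rest le_rfl (by push_cast; omega)
        have hX2 : Good B 0 n (shf (-1) (res X 1 (n + 1 : ℕ))) :=
          (hXg.rest (a' := 1) (c' := (n + 1 : ℕ)) (by omega) le_rfl).shift' (by ring)
            (by push_cast; ring)
        obtain ⟨p, hp0, hp⟩ := ih (res X 0 n) hX1
        obtain ⟨q, hq0, hq⟩ := ih (shf (-1) (res X 1 (n + 1 : ℕ))) hX2
        -- the left neighbours of the last vertex
        have hlast : ∀ u : ℤ, 1 ≤ u → ((u, (n : ℤ)) ∈ X ↔ u = n - 1) := by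
          intro u hu
          have h1 : (u, (n : ℤ)) ∈ X ↔ (u - 1 + q, (n : ℤ) - 1 + q) ∈ inf Z m := by
            constructor
            · intro h2
              have h3 : (u - 1 + q, (n : ℤ) - 1 + q) ∈ res (inf Z m) q (q + n) := by
                rw [hq, shf_shf, mem_shf]
                refine ⟨?_, ?_, ?_⟩
                · simp only
                  convert h2 using 2 <;> ring
                · simp only; omega
                · simp only; push_cast; omega
              exact h3.1
            · intro h2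
              have h3 : (u - 1 + q, (n : ℤ) - 1 + q) ∈ res (inf Z m) q (q + n) :=
                ⟨h2, by simp only; omega, by simp only; omega⟩
              rw [hq, shf_shf, mem_shf] at h3
              have h4 := h3.1
              simp only at h4
              convert h4 using 2 <;> ring
          rw [h1, hI2 _ _ (by omega)]
          omega
        have hn0 : (0, (n : ℤ)) ∉ X := by
          intro h0
          have h1 : ¬ Conn (res X 0 n) 0 ((n : ℤ) - 1) := by
            intro hc
            have h2 := forest_iff.1 hXg.forest _ h0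
            apply h2
            have h3 : Conn (X \ {(0, (n : ℤ))}) 0 ((n : ℤ) - 1) := by
              apply hc.mono
              intro e he
              refine ⟨he.1, ?_⟩
              rintro rfl
              have := he.2.2
              simp only at this
              omega
            apply h3.trans
            apply Conn.of_mem
            refine ⟨(hlast _ (by omega)).2 rfl, ?_⟩
            simp only [mem_singleton_iff, Prod.mk.injEq]
            omega
          have h2 : Good B 0 n (insert (0, (n : ℤ) - 1) (res X 0 n)) :=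
            hX1.insert_long hb le_rfl (by omega) (by omega) (by omega) h1
          obtain ⟨r, hr0, hr⟩ := ih (insert (0, (n : ℤ) - 1) (res X 0 n)) h2
          have h3 : (r, (n : ℤ) - 1 + r) ∈ res (inf Z m) r (r + n) := by
            rw [hr, mem_shf]
            left
            simp only [Prod.mk.injEq]
            constructor <;> ring
          have h4 := (hI2 _ _ (by omega)).1 h3.1
          omega
        refine ⟨p, hp0, ?_⟩
        ext ⟨u, v⟩
        simp only [mem_res, mem_shf]
        by_cases hv : v < p + n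
        · have h1 : ((u, v) ∈ inf Z m ∧ p ≤ u) ↔ (u - p, v - p) ∈ X := by
            constructor
            · rintro ⟨h2, h3⟩
              have h4 : (u, v) ∈ res (inf Z m) p (p + n) := ⟨h2, h3, hv⟩
              rw [hp] at h4
              exact h4.1
            · intro h2
              have h4 : (u, v) ∈ res (inf Z m) p (p + n) := by
                rw [hp, mem_shf]
                refine ⟨h2, ?_, ?_⟩
                · exact (hXg.sup _ h2).1
                · simp only; omega
              exact ⟨h4.1, h4.2.1⟩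
          constructor
          · rintro ⟨h2, h3, h4⟩
            exact h1.1 ⟨h2, h3⟩
          · intro h2
            have h3 := h1.2 h2
            exact ⟨h3.1, h3.2, by push_cast; omega⟩
        · constructor
          · rintro ⟨h2, h3, h4⟩
            have h5 := (hI2 _ _ (by omega)).1 h2
            push_cast at h4
            have h6 : v = p + n := by omega
            subst h6 h5
            have h7 := (hlast ((n : ℤ) - 1) (by omega)).2 rfl
            convert h7 using 2 <;> ring
          · intro h2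
            have h3 := hXg.sup _ h2
            simp only at h3
            push_cast at h3
            have h6 : v = p + n := by omega
            subst h6
            rw [show p + (n : ℤ) - p = n by ring] at h2
            have h7 : 1 ≤ u - p := by
              by_contra hcon
              have h8 : u - p = 0 := by omega
              rw [h8] at h2
              exact hn0 h2
            have h9 := (hlast _ h7).1 h2
            refine ⟨(hI2 _ _ (by omega)).2 (by omega), by omega, by push_cast; omega⟩
  -- joint embedding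
  intro x y hx hy
  obtain ⟨i, hi0, hi⟩ := hall x.1 x.2 hx
  obtain ⟨j, hj0, hj⟩ := hall y.1 y.2 hy
  have hk : (((i + x.1 + j + y.1).toNat : ℕ) : ℤ) = i + x.1 + j + y.1 :=
    Int.toNat_of_nonneg (by omega)
  refine ⟨((i + x.1 + j + y.1).toNat, res (inf Z m) 0 ((i + x.1 + j + y.1).toNat : ℕ)),
    hgood _, ⟨i, ?_⟩, ⟨j, ?_⟩⟩
  · refine ⟨hi0, by simp only; omega, ?_⟩
    simp only
    rw [res_res hi0 (by omega), hi]
  · refine ⟨hj0, by simp only; omega, ?_⟩
    simp only
    rw [res_res hj0 (by omega), hj]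

theorem jep_iff (hb : Bd B b) (hb1 : 1 ≤ b) :
    JEP B ↔ ∃ K, C1 B b K ∨ C3 B K ∨ C2R B b K ∨ C2R (rB B) b K := by
  constructor
  · exact exists_of_jep hb
  · rintro ⟨K, h | h | h | h⟩
    · exact (irr_of_C1 hb hb1 h).jep
    · exact h.jep
    · exact h.jep hb
    · exact jep_refl_iff.1 (h.jep hb.refl)

/-- The mirror image of `C2R`. -/
def C2L (B : Set Str) (b K : ℕ) : Prop :=
  ∃ Z, Av B (K, Z) ∧ ∃ m : ℕ, 1 ≤ m ∧ m + b ≤ K ∧
    (∀ u : ℤ, 0 ≤ u → u < K - m → ∀ v, ((u, v) ∈ Z ↔ v = u + 1)) ∧
    ∀ x : Str, x.1 ≤ m + b + 2 → Av B x → Occ x 0 K Z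

theorem C2R.refl {K : ℕ} (h : C2R B b K) : C2L (rB B) b K := by
  obtain ⟨Z, hZ, m, hm1, hmK, htail, hocc⟩ := h
  refine ⟨shf K (rf Z), hZ.refl, m, hm1, hmK, ?_, ?_⟩
  · intro u hu hu' v
    rw [mem_shf, mem_rf]
    simp only
    rw [htail _ (by omega) (by omega)]
    omega
  · intro x hx hxA
    have h1 := hxA.refl
    rw [rB_rB] at h1
    have h2 := (hocc (rs x) hx h1).refl
    rwa [rs_rs] at h2

theorem C2L.refl {K : ℕ} (h : C2L B b K) : C2R (rB B) b K := by
  obtain ⟨Z, hZ, m, hm1, hmK, htail, hocc⟩ := h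
  refine ⟨shf K (rf Z), hZ.refl, m, hm1, hmK, ?_, ?_⟩
  · intro u hu hu' v
    rw [mem_shf, mem_rf]
    simp only
    rw [htail _ (by omega) (by omega)]
    omega
  · intro x hx hxA
    have h1 := hxA.refl
    rw [rB_rB] at h1
    have h2 := (hocc (rs x) hx h1).refl
    rwa [rs_rs] at h2

theorem C2R_refl_iff {K : ℕ} : C2R (rB B) b K ↔ C2L B b K :=
  ⟨fun h => by simpa [rB_rB] using h.refl, fun h => h.refl⟩

theorem jep_iff' (hb : Bd B b) (hb1 : 1 ≤ b) :
    JEP B ↔ ∃ K, C1 B b K ∨ C3 B K ∨ C2R B b K ∨ C2L B b K := by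
  rw [jep_iff hb hb1]
  simp only [C2R_refl_iff]

/-- Failure of joint embedding, in finitary form. -/
def C0 (B : Set Str) (b K : ℕ) : Prop :=
  ∃ x y : Str, x.1 ≤ K ∧ y.1 ≤ K ∧ Av B x ∧ Av B y ∧
    ∀ z : Str, z.1 ≤ x.1 + y.1 + pumpK b → Av B z → ¬ (Occ x 0 z.1 z.2 ∧ Occ y 0 z.1 z.2)

theorem not_jep_iff (hb : Bd B b) : ¬ JEP B ↔ ∃ K, C0 B b K := by
  constructor
  · intro h
    unfold JEP at h
    push Not at h
    obtain ⟨x, y, hx, hy, h1⟩ := h
    exact ⟨max x.1 y.1, x, y, le_max_left _ _, le_max_right _ _, hx, hy,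
      fun z _ hz h2 => h1 z hz h2.1 h2.2⟩
  · rintro ⟨K, x, y, -, -, hx, hy, h⟩ hj
    obtain ⟨z, hz, h1, h2⟩ := hj x y hx hy
    obtain ⟨w, hw, hwA, h3, h4⟩ := pump hb (by omega) hz h1 h2
    exact h w hw hwA ⟨h3, h4⟩

end Pool.Agent.Work.MP_ab000d_co
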