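import Pool.Agent.Work.MP_ab000d_co.Lin

set_option autoImplicit false

namespace Pool.Agent.Work.MP_ab000d_co

open Set Submodule

/-- Restriction of a set of edges to the interval `[a, c)`. -/
def res (E : Set (ℤ × ℤ)) (a c : ℤ) : Set (ℤ × ℤ) := {e | e ∈ E ∧ a ≤ e.1 ∧ e.2 < c}

/-- Shift of a set of edges by `s`. -/
def shf (s : ℤ) (E : Set (ℤ × ℤ)) : Set (ℤ × ℤ) := {e | (e.1 - s, e.2 - s) ∈ E}

/-- `E` consists of edges `(u, v)` with `u < v` in the interval `[a, c)`. -/
def Sup (a c : ℤ) (E : Set (ℤ × ℤ)) : Prop := ∀ e ∈ E, a ≤ e.1 ∧ e.1 < e.2 ∧ e.2 < c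

/-- Finite ordered graphs: a length and a set of edges in `[0, n)`. -/
abbrev Str : Type := ℕ × Set (ℤ × ℤ)

/-- No member of `B` occurs in `E` inside `[a, c)`. -/
def Free (B : Set Str) (E : Set (ℤ × ℤ)) (a c : ℤ) : Prop :=
  ∀ β ∈ B, ∀ i : ℤ, a ≤ i → i + β.1 ≤ c → res E i (i + β.1) ≠ shf i β.2

/-- Members of `Av(B)` living on the interval `[a, c)`. -/
structure Good (B : Set Str) (a c : ℤ) (E : Set (ℤ × ℤ)) : Prop where
  sup : Sup a c E
  forest : Forest E
  free : Free B E a c

/-- All members of `B` have length at most `b`. -/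
def Bd (B : Set Str) (b : ℕ) : Prop := ∀ β ∈ B, β.1 ≤ b

section basic

variable {E F : Set (ℤ × ℤ)} {a c a' c' s t : ℤ}

theorem mem_res {e : ℤ × ℤ} : e ∈ res E a c ↔ e ∈ E ∧ a ≤ e.1 ∧ e.2 < c := Iff.rfl

theorem mem_shf {e : ℤ × ℤ} : e ∈ shf s E ↔ (e.1 - s, e.2 - s) ∈ E := Iff.rfl

theorem res_subset : res E a c ⊆ E := fun _ h => h.1

theorem res_res (h1 : a ≤ a') (h2 : c' ≤ c) : res (res E a c) a' c' = res E a' c' := by
  ext e
  simp only [mem_res]
  constructor
  · rintro ⟨⟨h, _, _⟩, h3, h4⟩; exact ⟨h, h3, h4⟩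
  · rintro ⟨h, h3, h4⟩; exact ⟨⟨h, by omega, by omega⟩, h3, h4⟩

theorem res_eq_self (h : Sup a c E) : res E a c = E := by
  ext e
  exact ⟨fun h1 => h1.1, fun h1 => ⟨h1, (h e h1).1, (h e h1).2.2⟩⟩

theorem res_mono (h : E ⊆ F) : res E a c ⊆ res F a c := fun _ h1 => ⟨h h1.1, h1.2⟩

theorem res_mono' (h1 : a' ≤ a) (h2 : c ≤ c') : res E a c ⊆ res E a' c' := fun e h =>
  ⟨h.1, by have := h.2.1; omega, by have := h.2.2; omega⟩

theorem res_union : res (E ∪ F) a c = res E a c ∪ res F a c := by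
  ext e; simp only [mem_res, mem_union]; tauto

theorem shf_zero : shf 0 E = E := by ext e; simp [mem_shf]

theorem shf_shf : shf s (shf t E) = shf (s + t) E := by
  ext e
  simp only [mem_shf]
  rw [show e.1 - s - t = e.1 - (s + t) by ring, show e.2 - s - t = e.2 - (s + t) by ring]

theorem shf_mono (h : E ⊆ F) : shf s E ⊆ shf s F := fun _ h1 => h h1

theorem shf_inj : shf s E = shf s F ↔ E = F := by
  constructor
  · intro h
    have := congrArg (shf (-s)) h
    simpa [shf_shf, shf_zero] using this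
  · rintro rfl; rfl

theorem shf_union : shf s (E ∪ F) = shf s E ∪ shf s F := rfl

theorem res_shf : res (shf s E) a c = shf s (res E (a - s) (c - s)) := by
  ext e
  simp only [mem_res, mem_shf]
  constructor
  · rintro ⟨h, h1, h2⟩; exact ⟨h, by omega, by omega⟩
  · rintro ⟨h, h1, h2⟩; exact ⟨h, by omega, by omega⟩

theorem Sup.rest (h : Sup a c E) : Sup a' c' (res E a' c') := fun e he =>
  ⟨he.2.1, (h e he.1).2.1, he.2.2⟩

theorem Sup.shift (h : Sup a c E) : Sup (a + s) (c + s) (shf s E) := fun e he => by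
  have := h _ he
  simp only at this
  omega

theorem Sup.mono (h : Sup a c E) (h1 : a' ≤ a) (h2 : c ≤ c') : Sup a' c' E := fun e he => by
  have := h e he
  omega

theorem Sup.subset (h : Sup a c F) (hEF : E ⊆ F) : Sup a c E := fun e he => h e (hEF he)

theorem Sup.union (h : Sup a c E) (h' : Sup a c F) : Sup a c (E ∪ F) := by
  rintro e (he | he)
  · exact h e he
  · exact h' e he

/-- The linear equivalence of translation. -/
noncomputable def trans (s : ℤ) : (ℤ →₀ ℚ) ≃ₗ[ℚ] (ℤ →₀ ℚ) :=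
  Finsupp.domLCongr (Equiv.addRight s)

theorem trans_chi (u v : ℤ) : trans s (chi (u, v)) = chi (u + s, v + s) := by
  rw [chi, map_sub]
  simp [trans, chi]

theorem chi_image_shf : chi '' (shf s E) = (trans s) '' (chi '' E) := by
  ext x
  constructor
  · rintro ⟨e, he, rfl⟩
    refine ⟨chi (e.1 - s, e.2 - s), ⟨_, he, rfl⟩, ?_⟩
    rw [trans_chi]; simp
  · rintro ⟨_, ⟨e, he, rfl⟩, rfl⟩
    refine ⟨(e.1 + s, e.2 + s), ?_, ?_⟩
    · rw [mem_shf]; simpa using he
    · obtain ⟨a, b⟩ := e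
      rw [trans_chi]

theorem conn_shf {u v : ℤ} : Conn (shf s E) u v ↔ Conn E (u - s) (v - s) := by
  unfold Conn
  rw [chi_image_shf]
  have h1 : span ℚ ((trans s) '' (chi '' E)) = (span ℚ (chi '' E)).map (trans s).toLinearMap := by
    rw [Submodule.map_span]; rfl
  rw [h1]
  have h2 : chi (u, v) = (trans s).toLinearMap (chi (u - s, v - s)) := by
    simp [trans_chi]
  rw [h2]
  constructor
  · rintro ⟨x, hx, hx'⟩
    have : x = chi (u - s, v - s) := (trans s).injective hx'
    rw [← this]; exact hx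
  · intro h; exact ⟨_, h, rfl⟩

theorem forest_shf : Forest (shf s E) ↔ Forest E := by
  have key : ∀ (s : ℤ) (E : Set (ℤ × ℤ)), Forest E → Forest (shf s E) := by
    intro s E h
    rw [forest_iff] at h ⊢
    intro e he
    have h1 := h _ he
    have h2 : shf s E \ {e} = shf s (E \ {(e.1 - s, e.2 - s)}) := by
      ext f
      simp only [mem_sdiff, mem_shf, mem_singleton_iff, Prod.ext_iff]
      constructor
      · rintro ⟨h3, h4⟩; refine ⟨h3, ?_⟩; rintro ⟨h5, h6⟩; exact h4 ⟨by omega, by omega⟩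
      · rintro ⟨h3, h4⟩; refine ⟨h3, ?_⟩; rintro ⟨h5, h6⟩; exact h4 ⟨by omega, by omega⟩
    rw [h2, conn_shf]
    exact h1
  constructor
  · intro h
    have := key (-s) _ h
    simpa [shf_shf, shf_zero] using this
  · exact key s E

end basic

section free

variable {B : Set Str} {b : ℕ} {E F : Set (ℤ × ℤ)} {a c a' c' s : ℤ}

theorem Free.congr (h : res E a c = res F a c) (hF : Free B F a c) : Free B E a c := by
  intro β hβ i h1 h2
  have := hF β hβ i h1 h2
  rwa [← res_res h1 h2, ← h, res_res h1 h2] at this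

theorem Free.sub (h : Free B E a c) (h1 : a ≤ a') (h2 : c' ≤ c) : Free B E a' c' :=
  fun β hβ i h3 h4 => h β hβ i (h1.trans h3) (h4.trans h2)

theorem Free.shift (h : Free B E a c) : Free B (shf s E) (a + s) (c + s) := by
  intro β hβ i h1 h2 h3
  have h4 := h β hβ (i - s) (by omega) (by omega)
  apply h4
  rw [res_shf] at h3
  rw [show i - s + (β.1 : ℤ) = i + β.1 - s by ring]
  have h5 : shf i β.2 = shf s (shf (i - s) β.2) := by
    rw [shf_shf]; ring_nf
  rw [h5, shf_inj] at h3
  exact h3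

theorem Free.glue (hb : Bd B b) {p : ℤ} (h1 : Free B E a p) (h2 : Free B E (p - b) c) :
    Free B E a c := by
  intro β hβ i hi hi'
  have := hb β hβ
  by_cases h : i + β.1 ≤ p
  · exact h1 β hβ i hi h
  · exact h2 β hβ i (by omega) hi'

/-- Freeness only depends on the short edges. -/
theorem Free.short (hb : Bd B b)
    (h : ∀ e : ℤ × ℤ, a ≤ e.1 → e.2 < c → e.2 - e.1 < b → (e ∈ E ↔ e ∈ F))
    (hF : Free B F a c) : Free B E a c := by
  intro β hβ i h1 h2
  have h3 := hb β hβ
  have h4 : res E i (i + β.1) = res F i (i + β.1) := by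
    ext e
    simp only [mem_res]
    constructor
    · rintro ⟨h5, h6, h7⟩
      exact ⟨(h e (by omega) (by omega) (by omega)).1 h5, h6, h7⟩
    · rintro ⟨h5, h6, h7⟩
      exact ⟨(h e (by omega) (by omega) (by omega)).2 h5, h6, h7⟩
  rw [h4]
  exact hF β hβ i h1 h2

theorem Good.rest (h : Good B a c E) (h1 : a ≤ a') (h2 : c' ≤ c) : Good B a' c' (res E a' c') :=
  ⟨h.sup.rest, h.forest.mono res_subset,
    Free.congr (res_res le_rfl le_rfl) (h.free.sub h1 h2)⟩

theorem Good.shift (h : Good B a c E) : Good B (a + s) (c + s) (shf s E) :=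
  ⟨h.sup.shift, forest_shf.2 h.forest, h.free.shift⟩

theorem Good.shift' (h : Good B a c E) (ha : a' = a + s) (hc : c' = c + s) :
    Good B a' c' (shf s E) := by
  subst ha hc; exact h.shift

/-- Pasting a new left part. -/
theorem paste {L Z : Set (ℤ × ℤ)} {a0 p : ℤ} (hb : Bd B b) (hL : Good B a p L)
    (hZ : Good B a0 c Z) (hap : a ≤ p - b) (ha0 : a0 ≤ p - b) (hpc : p ≤ c)
    (hW : res L (p - b) p = res Z (p - b) p)
    (hconn : ∀ u v : ℤ, p - b ≤ u → u < p → p - b ≤ v → v < p → Conn L u v →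
      Conn (res Z a0 p) u v) :
    Good B a c (L ∪ res Z (p - b) c) ∧
      res (L ∪ res Z (p - b) c) a p = L ∧
      res (L ∪ res Z (p - b) c) (p - b) c =
        res Z (p - b) c := by
  have e1 : res (L ∪ res Z (p - b) c) a p = L := by
    rw [res_union, res_eq_self hL.sup]
    apply union_eq_left.2
    intro e he
    have : e ∈ res Z (p - b) p := ⟨he.1.1, he.1.2.1, he.2.2⟩
    rw [← hW] at this
    exact this.1
  have e2 : res (L ∪ res Z (p - b) c) (p - b) c =
      res Z (p - b) c := by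
    rw [res_union, res_res le_rfl le_rfl]
    apply union_eq_right.2
    intro e he
    have h3 : e ∈ res L (p - b) p := ⟨he.1, he.2.1, (hL.sup e he.1).2.2⟩
    rw [hW] at h3
    exact ⟨h3.1, h3.2.1, by have := h3.2.2; omega⟩
  refine ⟨⟨?_, ?_, ?_⟩, e1, e2⟩
  · apply Sup.union
    · exact hL.sup.mono le_rfl hpc
    · exact (hZ.sup.rest (a' := p - b) (c' := c)).mono hap le_rfl
  · apply exchange (E1 := res Z a0 p) (S := Ico (p - b) p)
    · exact hZ.forest.mono (union_subset res_subset res_subset)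
    · exact hL.forest
    · intro e he he'
      have : e ∈ res Z (p - b) p := ⟨he.1, he.2.1, he'.2.2⟩
      rw [← hW] at this
      exact this.1
    · rintro v ⟨e, he, hev⟩ ⟨f, hf, hfv⟩
      have h1 := hL.sup e he
      have h2 := (hZ.sup f hf.1.1).2.1
      have h3 := hf.1.2
      constructor <;> omega
    · intro s hs s' hs' hc
      exact hconn s s' hs.1 hs.2 hs'.1 hs'.2 hc
  · apply Free.glue hb (p := p)
    · exact Free.congr (F := L) (by rw [e1, res_eq_self hL.sup]) hL.free
    · exact Free.congr (F := Z) e2 (hZ.free.sub ha0 le_rfl)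

/-- Pasting a new right part. -/
theorem paste' {R Z : Set (ℤ × ℤ)} {c0 q : ℤ} (hb : Bd B b) (hR : Good B q c R)
    (hZ : Good B a c0 Z) (hqc : q + b ≤ c) (hc0 : q + b ≤ c0) (haq : a ≤ q)
    (hW : res R q (q + b) = res Z q (q + b))
    (hconn : ∀ u v : ℤ, q ≤ u → u < q + b → q ≤ v → v < q + b → Conn R u v →
      Conn (res Z q c0) u v) :
    Good B a c (res Z a (q + b) ∪ R) ∧
      res (res Z a (q + b) ∪ R) q c = R ∧
      res (res Z a (q + b) ∪ R) a (q + b) =
        res Z a (q + b) := by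
  have e1 : res (res Z a (q + b) ∪ R) q c = R := by
    rw [res_union, res_eq_self hR.sup]
    apply union_eq_right.2
    intro e he
    have : e ∈ res Z q (q + b) := ⟨he.1.1, he.2.1, he.1.2.2⟩
    rw [← hW] at this
    exact this.1
  have e2 : res (res Z a (q + b) ∪ R) a (q + b) =
      res Z a (q + b) := by
    rw [res_union, res_res le_rfl le_rfl]
    apply union_eq_left.2
    intro e he
    have h3 : e ∈ res R q (q + b) := ⟨he.1, (hR.sup e he.1).1, he.2.2⟩
    rw [hW] at h3
    exact ⟨h3.1, by have := h3.2.1; omega, h3.2.2⟩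
  refine ⟨⟨?_, ?_, ?_⟩, e1, e2⟩
  · apply Sup.union
    · exact (hZ.sup.rest (a' := a) (c' := q + b)).mono le_rfl hqc
    · exact hR.sup.mono haq le_rfl
  · rw [union_comm]
    apply exchange (E1 := res Z q c0) (S := Ico q (q + b))
    · exact hZ.forest.mono (union_subset res_subset res_subset)
    · exact hR.forest
    · intro e he he'
      have : e ∈ res Z q (q + b) := ⟨he.1, he'.2.1, he.2.2⟩
      rw [← hW] at this
      exact this.1
    · rintro v ⟨e, he, hev⟩ ⟨f, hf, hfv⟩
      have h1 := hR.sup e he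
      have h2 := (hZ.sup f hf.1.1).2.1
      have h3 := hf.1.2
      constructor <;> omega
    · intro s hs s' hs' hc
      exact hconn s s' hs.1 hs.2 hs'.1 hs'.2 hc
  · apply Free.glue hb (p := q + b)
    · exact Free.congr (F := Z) e2 (hZ.free.sub le_rfl hc0)
    · rw [add_sub_cancel_right]
      exact Free.congr (F := R) (by rw [e1, res_eq_self hR.sup]) hR.free

/-- Adding a long edge between two vertices that are not connected. -/
theorem Good.insert_long (hb : Bd B b) (h : Good B a c E) {u v : ℤ} (hu : a ≤ u) (hv : v < c)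
    (huv : b ≤ v - u) (huv' : u < v) (hn : ¬ Conn E u v) : Good B a c (insert (u, v) E) := by
  refine ⟨?_, h.forest.insert hn, ?_⟩
  · rintro e (rfl | he)
    · exact ⟨hu, huv', hv⟩
    · exact h.sup e he
  · apply Free.short hb _ h.free
    intro e _ _ h3
    simp only [mem_insert_iff]
    constructor
    · rintro (rfl | h4)
      · simp only at h3; omega
      · exact h4
    · exact Or.inr

/-- Removing long edges. -/
theorem Good.remove_long (hb : Bd B b) (h : Good B a c E) (hFE : F ⊆ E)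
    (hF : ∀ e ∈ E, e.2 - e.1 < b → e ∈ F) : Good B a c F :=
  ⟨h.sup.subset hFE, h.forest.mono hFE, Free.short hb (fun e _ _ h3 =>
    ⟨fun h4 => hFE h4, fun h4 => hF e h4 h3⟩) h.free⟩

end free

/-- `x` occurs in `Z` (on `[a, c)`) at position `i`. -/
def OccAt (x : Str) (a c : ℤ) (Z : Set (ℤ × ℤ)) (i : ℤ) : Prop :=
  a ≤ i ∧ i + x.1 ≤ c ∧ res Z i (i + x.1) = shf i x.2

/-- `x` occurs in `Z` (on `[a, c)`). -/
def Occ (x : Str) (a c : ℤ) (Z : Set (ℤ × ℤ)) : Prop := ∃ i, OccAt x a c Z i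

/-- Members of `Av(B)`. -/
def Av (B : Set Str) (x : Str) : Prop := Good B 0 x.1 x.2

/-- The joint embedding property of `Av(B)`. -/
def JEP (B : Set Str) : Prop :=
  ∀ x y : Str, Av B x → Av B y → ∃ z : Str, Av B z ∧ Occ x 0 z.1 z.2 ∧ Occ y 0 z.1 z.2

end Pool.Agent.Work.MP_ab000d_co
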